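import Mathlib
import Pool.Agent.H789R2.FR.Arch
import Pool.Agent.V1178.LI.One

set_option autoImplicit false

/-! Decay of the Fourier transform of truncated densities on the sphere whose superlevel sets meet
the great semicircles in few arcs. -/

namespace Pool.Agent.V1172.GC

open MeasureTheory Set Metric Complex
open Pool.Agent.H789R2.FR
open Pool.Agent.V1178.LI (Lvl trans_trunc)
open scoped ENNReal NNReal RealInnerProductSpace

/-- All superlevel sets of `f` meet all open great semicircles in at most `N` arcs. -/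
def Md (N : ℕ) (f : E 3 → ℝ≥0) : Prop :=
  ∀ s : ℝ≥0, ∀ ω v : E 3, ‖ω‖ = 1 → ‖v‖ = 1 → ⟪ω, v⟫ = 0 →
    ∃ I : Fin N → Set ℝ, (∀ i, (I i).OrdConnected) ∧
      {θ | θ ∈ Ioo 0 Real.pi ∧ s < f (Real.cos θ • ω + Real.sin θ • v)} = ⋃ i, I i

/-- The variation of `m` along every open great semicircle is at most `N`. -/
def Vr (N : ℕ) (m : E 3 → ℂ) : Prop :=
  ∀ ω v : E 3, ‖ω‖ = 1 → ‖v‖ = 1 → ⟪ω, v⟫ = 0 →
    eVariationOn (fun θ : ℝ => m (Real.cos θ • ω + Real.sin θ • v)) (Ioo 0 Real.pi) ≤ N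

/-- `(min f lam) m` -/
noncomputable def tr (f : E 3 → ℝ≥0) (m : E 3 → ℂ) (lam : ℝ≥0) (x : E 3) : ℂ :=
  ((min (f x) lam : ℝ≥0) : ℂ) * m x

/-- translations of functions of bounded variation -/
lemma bv_trans {μ : ℝ → ℂ} {N : ℝ} (hN : 0 ≤ N)
    (hV : eVariationOn μ (Ioo (-1 : ℝ) 1) ≤ ENNReal.ofReal N) {h : ℝ} (hh : 0 < h) :
    ∫⁻ u in Ioo (-1 : ℝ) (1 - h), ‖μ (u + h) - μ u‖ₑ ≤ ENNReal.ofReal (N * h) := by
  by_cases h2 : 2 ≤ h
  · rw [Ioo_eq_empty (by linarith)]
    simp
  push Not at h2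
  set W : ℝ → ℝ := fun u => (eVariationOn μ (Ioo (-1 : ℝ) 1 ∩ Iic u)).toReal with hW
  have hfin : ∀ s ⊆ Ioo (-1 : ℝ) 1, eVariationOn μ s ≠ ∞ := fun s hs =>
    ne_top_of_le_ne_top ENNReal.ofReal_ne_top ((eVariationOn.mono μ hs).trans hV)
  have hWm : Monotone W := fun a b hab => ENNReal.toReal_mono (hfin _ inter_subset_left)
    (eVariationOn.mono μ (inter_subset_inter_right _ (Iic_subset_Iic.2 hab)))
  have hW0 : ∀ u, 0 ≤ W u := fun u => ENNReal.toReal_nonneg
  have hWN : ∀ u, W u ≤ N := fun u => by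
    refine ENNReal.toReal_le_of_le_ofReal hN ((eVariationOn.mono μ inter_subset_left).trans hV)
  have hkey : ∀ u ∈ Ioo (-1 : ℝ) (1 - h), ‖μ (u + h) - μ u‖ ≤ W (u + h) - W u := by
    intro u hu
    have hu1 : u ∈ Ioo (-1 : ℝ) 1 := ⟨hu.1, by linarith [hu.2]⟩
    have hu2 : u + h ∈ Ioo (-1 : ℝ) 1 := ⟨by linarith [hu.1], by linarith [hu.2]⟩
    have h3 : eVariationOn μ (Ioo (-1 : ℝ) 1 ∩ Iic u) + eVariationOn μ (Icc u (u + h)) ≤
        eVariationOn μ (Ioo (-1 : ℝ) 1 ∩ Iic (u + h)) := by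
      refine (eVariationOn.add_le_union μ fun x hx y hy => hx.2.trans hy.1).trans
        (eVariationOn.mono μ ?_)
      rintro x (hx | hx)
      · exact ⟨hx.1, mem_Iic.2 (le_trans (mem_Iic.1 hx.2) (by linarith))⟩
      · exact ⟨⟨by linarith [hx.1, hu1.1], by linarith [hx.2, hu2.2]⟩, hx.2⟩
    have h4 : ENNReal.ofReal ‖μ (u + h) - μ u‖ ≤ eVariationOn μ (Icc u (u + h)) := by
      have := eVariationOn.edist_le μ (s := Icc u (u + h)) (x := u + h) (y := u)
        (right_mem_Icc.2 (by linarith)) (left_mem_Icc.2 (by linarith))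
      rwa [edist_dist, dist_eq_norm] at this
    have h5 : ENNReal.ofReal (W u + ‖μ (u + h) - μ u‖) ≤ ENNReal.ofReal (W (u + h)) := by
      rw [ENNReal.ofReal_add (hW0 u) (norm_nonneg _)]
      simp only [hW]
      rw [ENNReal.ofReal_toReal (hfin _ inter_subset_left),
        ENNReal.ofReal_toReal (hfin _ inter_subset_left)]
      exact (add_le_add le_rfl h4).trans h3
    have h6 := (ENNReal.ofReal_le_ofReal_iff (hW0 _)).1 h5
    linarith
  have hii : ∀ a b : ℝ, IntervalIntegrable W volume a b := fun a b => hWm.intervalIntegrable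
  have hii2 : ∀ a b : ℝ, IntervalIntegrable (fun u => W (u + h)) volume a b := fun a b =>
    (show Monotone fun u => W (u + h) from fun x y hxy => hWm (by linarith)).intervalIntegrable
  have hab : (-1 : ℝ) ≤ 1 - h := by linarith
  calc ∫⁻ u in Ioo (-1 : ℝ) (1 - h), ‖μ (u + h) - μ u‖ₑ
      ≤ ∫⁻ u in Ioo (-1 : ℝ) (1 - h), ENNReal.ofReal (W (u + h) - W u) := by
        refine setLIntegral_mono' measurableSet_Ioo fun u hu => ?_
        rw [← ofReal_norm]
        exact ENNReal.ofReal_le_ofReal (hkey u hu)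
    _ = ENNReal.ofReal (∫ u in Ioo (-1 : ℝ) (1 - h), (W (u + h) - W u)) := by
        rw [ofReal_integral_eq_lintegral_ofReal]
        · have := ((hii2 (-1) (1 - h)).sub (hii (-1) (1 - h)))
          exact ((intervalIntegrable_iff_integrableOn_Ioc_of_le hab).1 this).mono_set Ioo_subset_Ioc_self
        · refine Filter.Eventually.of_forall fun u => ?_
          have := hWm (show u ≤ u + h by linarith)
          simp only [Pi.zero_apply]
          linarith
    _ ≤ ENNReal.ofReal (N * h) := by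
        apply ENNReal.ofReal_le_ofReal
        rw [← integral_Ioc_eq_integral_Ioo, ← intervalIntegral.integral_of_le hab,
          intervalIntegral.integral_sub (hii2 _ _) (hii _ _),
          intervalIntegral.integral_comp_add_right (fun u => W u),
          intervalIntegral.integral_interval_sub_interval_comm (hii _ _) (hii _ _) (hii _ _)]
        have a1 : ∫ x in (-1 + h)..(-1), W x ≤ 0 := by
          rw [intervalIntegral.integral_symm]
          have := intervalIntegral.integral_nonneg (a := -1) (b := -1 + h) (f := W) (μ := volume)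
            (by linarith) (fun u _ => hW0 u)
          linarith
        have a2 : ∫ x in (1 - h)..(1 - h + h), W x ≤ N * h := by
          have := intervalIntegral.integral_mono_on (a := 1 - h) (b := 1 - h + h) (f := W)
            (g := fun _ => N) (μ := volume) (by linarith) (hii _ _) intervalIntegrable_const
            (fun u _ => hWN u)
          rw [intervalIntegral.integral_const, smul_eq_mul] at this
          linarith
        have a3 := intervalIntegral.integral_symm (μ := volume) (f := W) (1 - h + h) (1 - h)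
        linarith

/-- one variable: integration against an oscillating exponential. -/
lemma osc {N : ℕ} {ψ : ℝ → ℝ≥0} (hψ : Measurable ψ) (hL : Lvl N ψ) (h0 : ∀ u ∉ Ioo (-1 : ℝ) 1, ψ u = 0)
    {μ : ℝ → ℂ} (hμ : Measurable μ) (hμ1 : ∀ u, ‖μ u‖ ≤ 1)
    (hV : eVariationOn μ (Ioo (-1 : ℝ) 1) ≤ N)
    (lam : ℝ≥0) {r : ℝ} (hr : 0 < r) :
    ‖∫ u, cexp (-((r * u : ℝ) : ℂ) * I) * (((min (ψ u) lam : ℝ≥0) : ℂ) * μ u)‖ ≤
      3 / 2 * Real.pi * N * lam / r := by
  set h : ℝ := Real.pi / r with hh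
  have hh0 : 0 < h := by positivity
  set F : ℝ → ℂ := fun u => ((min (ψ u) lam : ℝ≥0) : ℂ) * μ u with hF
  set e : ℝ → ℂ := fun u => cexp (-((r * u : ℝ) : ℂ) * I) with he
  have hen : ∀ u, ‖e u‖ = 1 := fun u => by
    simp only [he]
    rw [show -((r * u : ℝ) : ℂ) * I = ((-(r * u) : ℝ) : ℂ) * I by push_cast; ring,
      Complex.norm_exp_ofReal_mul_I]
  have hpm : Measurable fun u => ((min (ψ u) lam : ℝ≥0) : ℂ) := by
    have h1 : Measurable fun u => min (ψ u) lam := hψ.min measurable_const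
    exact Complex.measurable_ofReal.comp (measurable_coe_nnreal_real.comp h1)
  have hFm : Measurable F := hpm.mul hμ
  have hem : Measurable e := by
    have : Continuous e := by fun_prop
    exact this.measurable
  have hpn : ∀ u, ‖((min (ψ u) lam : ℝ≥0) : ℂ)‖ = ((min (ψ u) lam : ℝ≥0) : ℝ) := fun u => by
    rw [Complex.norm_real, Real.norm_of_nonneg (NNReal.coe_nonneg _)]
  have hFb : ∀ u, ‖F u‖ ≤ lam := fun u => by
    simp only [hF]
    rw [norm_mul, hpn]
    calc ((min (ψ u) lam : ℝ≥0) : ℝ) * ‖μ u‖ ≤ lam * 1 := by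
          gcongr
          · exact min_le_right _ _
          · exact hμ1 u
      _ = lam := mul_one _
  have hF0 : ∀ u ∉ Ioo (-1 : ℝ) 1, F u = 0 := fun u hu => by
    simp only [hF, h0 u hu]
    simp
  have hFi : Integrable F := by
    have h1 : IntegrableOn F (Ioo (-1 : ℝ) 1) :=
      Measure.integrableOn_of_bounded (M := lam) (by simp) hFm.aestronglyMeasurable
        (Filter.Eventually.of_forall hFb)
    exact (integrableOn_iff_integrable_of_support_subset (fun u hu => by
      by_contra hc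
      exact hu (hF0 u hc))).1 h1
  have hGi : Integrable fun u => F (u + h) := hFi.comp_add_right h
  have hmul : ∀ G : ℝ → ℂ, Integrable G → Integrable fun u => e u * G u := fun G hG =>
    hG.bdd_mul hem.aestronglyMeasurable (c := 1) (Filter.Eventually.of_forall fun u => (hen u).le)
  have hJ : ∫ u, e u * F u = -∫ u, e u * F (u + h) := by
    rw [← integral_add_right_eq_self (fun u => e u * F u) h, ← integral_neg]
    congr 1
    ext u
    have : e (u + h) = -e u := by
      simp only [he]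
      have h1 : -((r * (u + h) : ℝ) : ℂ) * I = -((r * u : ℝ) : ℂ) * I + -((Real.pi : ℝ) : ℂ) * I := by
        have h2 : r * (u + h) = r * u + Real.pi := by rw [hh]; field_simp
        rw [h2]; push_cast; ring
      rw [h1, Complex.exp_add]
      have h3 : cexp (-((Real.pi : ℝ) : ℂ) * I) = -1 := by
        rw [neg_mul, Complex.exp_neg, Complex.exp_pi_mul_I]; norm_num
      rw [h3]; ring
    rw [this]; ring
  have h2J : 2 * ∫ u, e u * F u = ∫ u, e u * (F u - F (u + h)) := by
    have : ∫ u, e u * (F u - F (u + h)) = (∫ u, e u * F u) - ∫ u, e u * F (u + h) := by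
      rw [← integral_sub (hmul _ hFi) (hmul _ hGi)]
      congr 1; ext u; ring
    rw [this]
    have h4 : ∫ u, e u * F (u + h) = -∫ u, e u * F u := by rw [hJ]; ring
    rw [h4]; ring
  -- the translate
  have hpt : ∀ u, ‖F u - F (u + h)‖ₑ ≤
      ENNReal.ofReal |((min (ψ (u + h)) lam : ℝ≥0) : ℝ) - ((min (ψ u) lam : ℝ≥0) : ℝ)| +
      (Ioo (-1 : ℝ) (1 - h)).indicator (fun u => (lam : ℝ≥0∞) * ‖μ (u + h) - μ u‖ₑ) u := by
    intro u
    set a : ℝ≥0 := min (ψ (u + h)) lam with ha
    set b : ℝ≥0 := min (ψ u) lam with hb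
    have hbl : b ≤ lam := min_le_right _ _
    by_cases hu : u ∈ Ioo (-1 : ℝ) (1 - h)
    · rw [indicator_of_mem hu, ← ofReal_norm, ← ofReal_norm, ← ENNReal.ofReal_coe_nnreal,
        ← ENNReal.ofReal_mul (NNReal.coe_nonneg _), ← ENNReal.ofReal_add (abs_nonneg _) (by positivity)]
      apply ENNReal.ofReal_le_ofReal
      have e1 : F u - F (u + h) = ((b : ℝ) - (a : ℝ) : ℝ) * μ (u + h) +
          ((b : ℝ) : ℂ) * (μ u - μ (u + h)) := by
        simp only [hF]
        rw [← ha, ← hb]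
        push_cast
        ring
      rw [e1]
      refine (norm_add_le _ _).trans (add_le_add ?_ ?_)
      · rw [norm_mul, Complex.norm_real, Real.norm_eq_abs, abs_sub_comm]
        exact mul_le_of_le_one_right (abs_nonneg _) (hμ1 _)
      · rw [norm_mul, Complex.norm_real, Real.norm_of_nonneg (NNReal.coe_nonneg _), norm_sub_rev]
        gcongr
    · rw [indicator_of_notMem hu, add_zero, ← ofReal_norm]
      apply ENNReal.ofReal_le_ofReal
      by_cases hu1 : u ∈ Ioo (-1 : ℝ) 1
      · have hu2 : u + h ∉ Ioo (-1 : ℝ) 1 := fun hc => hu ⟨hu1.1, by linarith [hc.2]⟩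
        rw [hF0 _ hu2, sub_zero]
        have ha0 : a = 0 := by rw [ha, h0 _ hu2]; simp
        rw [ha0]
        simp only [hF]
        rw [← hb, norm_mul, Complex.norm_real, Real.norm_of_nonneg (NNReal.coe_nonneg _)]
        simp only [NNReal.coe_zero, zero_sub, abs_neg]
        rw [abs_of_nonneg (NNReal.coe_nonneg _)]
        exact mul_le_of_le_one_right (NNReal.coe_nonneg _) (hμ1 _)
      · rw [hF0 _ hu1, zero_sub, norm_neg]
        have hb0 : b = 0 := by rw [hb, h0 _ hu1]; simp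
        rw [hb0]
        simp only [hF]
        rw [← ha, norm_mul, Complex.norm_real, Real.norm_of_nonneg (NNReal.coe_nonneg _)]
        simp only [NNReal.coe_zero, sub_zero]
        rw [abs_of_nonneg (NNReal.coe_nonneg _)]
        exact mul_le_of_le_one_right (NNReal.coe_nonneg _) (hμ1 _)
  have hbv := bv_trans (Nat.cast_nonneg N) (by rw [ENNReal.ofReal_natCast]; exact hV) hh0
  have hbd : ‖∫ u, e u * (F u - F (u + h))‖ ≤ 2 * N * h * lam + N * h * lam := by
    have h5 : ENNReal.ofReal ‖∫ u, e u * (F u - F (u + h))‖ ≤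
        ENNReal.ofReal (2 * N * h * lam + N * h * lam) := by
      rw [ofReal_norm]
      refine (enorm_integral_le_lintegral_enorm _).trans ?_
      have hmi : Measurable fun u => (Ioo (-1 : ℝ) (1 - h)).indicator
          (fun u => (lam : ℝ≥0∞) * ‖μ (u + h) - μ u‖ₑ) u := by
        refine Measurable.indicator ?_ measurableSet_Ioo
        exact (((hμ.comp (measurable_id.add_const h)).sub hμ).enorm).const_mul _
      calc ∫⁻ u, ‖e u * (F u - F (u + h))‖ₑ
          ≤ ∫⁻ u, (ENNReal.ofReal |((min (ψ (u + h)) lam : ℝ≥0) : ℝ) - ((min (ψ u) lam : ℝ≥0) : ℝ)| +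
            (Ioo (-1 : ℝ) (1 - h)).indicator (fun u => (lam : ℝ≥0∞) * ‖μ (u + h) - μ u‖ₑ) u) := by
            refine lintegral_mono fun u => ?_
            rw [enorm_mul]
            have : ‖e u‖ₑ = 1 := by rw [← ofReal_norm, hen]; simp
            rw [this, one_mul]
            exact hpt u
        _ = (∫⁻ u, ENNReal.ofReal |((min (ψ (u + h)) lam : ℝ≥0) : ℝ) - ((min (ψ u) lam : ℝ≥0) : ℝ)|) +
            ∫⁻ u, (Ioo (-1 : ℝ) (1 - h)).indicator (fun u => (lam : ℝ≥0∞) * ‖μ (u + h) - μ u‖ₑ) u :=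
            lintegral_add_right _ hmi
        _ ≤ ENNReal.ofReal (2 * N * h * lam) + (lam : ℝ≥0∞) * ENNReal.ofReal (N * h) := by
            refine add_le_add (trans_trunc hψ hL lam hh0.le) ?_
            rw [lintegral_indicator measurableSet_Ioo, lintegral_const_mul']
            · gcongr
            · exact ENNReal.coe_ne_top
        _ = _ := by
            rw [← ENNReal.ofReal_coe_nnreal, ← ENNReal.ofReal_mul (NNReal.coe_nonneg _),
              ← ENNReal.ofReal_add (by positivity) (by positivity)]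
            congr 1
            ring
    exact (ENNReal.ofReal_le_ofReal_iff (by positivity)).1 h5
  have h6 : 2 * ‖∫ u, e u * F u‖ ≤ 2 * N * h * lam + N * h * lam := by
    have : ‖(2 : ℂ) * ∫ u, e u * F u‖ = 2 * ‖∫ u, e u * F u‖ := by
      rw [norm_mul]; norm_num
    rw [← this, h2J]; exact hbd
  have h7 : 3 / 2 * Real.pi * N * lam / r = 3 / 2 * (N * h * lam) := by rw [hh]; ring
  rw [h7]
  linarith

/-- one great semicircle, in the height variable -/
lemma lvl_of {N : ℕ} {f : E 3 → ℝ≥0} (hf : Md N f) {ω v : E 3} (hω : ‖ω‖ = 1) (hv : ‖v‖ = 1)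
    (hov : ⟪ω, v⟫ = 0) :
    Lvl N fun u => if u ∈ Ioo (-1 : ℝ) 1 then f (u • ω + sc u • v) else 0 := by
  intro s
  obtain ⟨I, hI, hE⟩ := hf s ω v hω hv hov
  refine ⟨fun i => {u | u ∈ Ioo (-1 : ℝ) 1 ∧ Real.arccos u ∈ I i}, fun i => ?_, ?_⟩
  · refine ⟨fun x hx y hy z hz => ?_⟩
    have hz1 : z ∈ Ioo (-1 : ℝ) 1 := ⟨lt_of_lt_of_le hx.1.1 hz.1, lt_of_le_of_lt hz.2 hy.1.2⟩
    refine ⟨hz1, (hI i).out hy.2 hx.2 ⟨?_, ?_⟩⟩
    · exact Real.antitone_arccos hz.2
    · exact Real.antitone_arccos hz.1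
  · ext u
    simp only [mem_ofPred_eq, mem_iUnion]
    by_cases hu : u ∈ Ioo (-1 : ℝ) 1
    · rw [if_pos hu]
      have hθ : Real.arccos u ∈ Ioo 0 Real.pi :=
        ⟨Real.arccos_pos.2 hu.2, Real.arccos_lt_pi.2 hu.1⟩
      have h1 : s < f (u • ω + sc u • v) ↔ Real.arccos u ∈ ⋃ i, I i := by
        rw [← hE]
        simp only [mem_ofPred_eq]
        rw [Real.cos_arccos hu.1.le hu.2.le, Real.sin_arccos]
        constructor
        · exact fun h => ⟨hθ, h⟩
        · exact fun h => h.2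
      rw [h1, mem_iUnion]
      constructor
      · rintro ⟨i, hi⟩
        exact ⟨i, hu, hi⟩
      · rintro ⟨i, -, hi⟩
        exact ⟨i, hi⟩
    · rw [if_neg hu]
      constructor
      · intro h
        exact absurd h (not_lt.2 zero_le)
      · rintro ⟨i, h, -⟩
        exact absurd h hu

/-- the third basis vector -/
noncomputable def e3 : E 3 := !₂[0, 0, 1]

/-- the horizontal unit vector of angle `φ` -/
noncomputable def hz (φ : ℝ) : E 3 := !₂[Real.cos φ, Real.sin φ, 0]

lemma norm_e3 : ‖e3‖ = 1 := by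
  rw [EuclideanSpace.norm_eq]; simp [e3, Fin.sum_univ_three]

lemma norm_hz (φ : ℝ) : ‖hz φ‖ = 1 := by
  rw [EuclideanSpace.norm_eq]; simp [hz, Fin.sum_univ_three]

lemma e3_hz (φ : ℝ) : ⟪e3, hz φ⟫ = 0 := by
  simp [e3, hz, Fin.sum_univ_three, PiLp.inner_apply]

lemma pt_eq (c φ : ℝ) : pt c φ = c • e3 + sc c • hz φ := by
  ext i
  fin_cases i <;> simp [pt, e3, hz]

lemma e3_pt (c φ : ℝ) : ⟪e3, pt c φ⟫ = c := by
  simp [e3, pt, Fin.sum_univ_three, PiLp.inner_apply]

/-- the variation in the height variable -/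
lemma var_of {N : ℕ} {m : E 3 → ℂ} (hm : Vr N m) {ω v : E 3} (hω : ‖ω‖ = 1) (hv : ‖v‖ = 1)
    (hov : ⟪ω, v⟫ = 0) : eVariationOn (fun u => m (u • ω + sc u • v)) (Ioo (-1 : ℝ) 1) ≤ N := by
  refine le_trans ?_ (hm ω v hω hv hov)
  have h1 := eVariationOn.comp_le_of_antitoneOn
    (fun θ : ℝ => m (Real.cos θ • ω + Real.sin θ • v)) (s := Ioo 0 Real.pi) (t := Ioo (-1 : ℝ) 1)
    Real.arccos (fun x _ y _ hxy => Real.antitone_arccos hxy)
    (fun u hu => ⟨Real.arccos_pos.2 hu.2, Real.arccos_lt_pi.2 hu.1⟩)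
  refine le_trans (le_of_eq ?_) h1
  apply eVariationOn.eq_of_eqOn
  intro u hu
  simp only [Function.comp]
  rw [Real.cos_arccos hu.1.le hu.2.le, Real.sin_arccos]
  rfl

/-- **Decay.** -/
theorem decay {N : ℕ} {f : E 3 → ℝ≥0} (hf : Measurable f) (hM : Md N f) {m : E 3 → ℂ}
    (hm : Measurable m) (hm1 : ∀ x, ‖m x‖ ≤ 1) (hmV : Vr N m) (lam : ℝ≥0) (ξ : E 3)
    (hξ : ξ ≠ 0) : ‖T (tr f m lam) ξ‖ ≤ 3 * Real.pi ^ 2 * N * lam / ‖ξ‖ := by
  set r : ℝ := ‖ξ‖ with hr
  have hr0 : 0 < r := norm_pos_iff.2 hξ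
  set ω : E 3 := r⁻¹ • ξ with hω
  have hωn : ‖ω‖ = 1 := by
    rw [hω, norm_smul, norm_inv, Real.norm_of_nonneg hr0.le, ← hr, inv_mul_cancel₀ hr0.ne']
  have hξω : ξ = r • ω := by rw [hω, smul_smul, mul_inv_cancel₀ hr0.ne', one_smul]
  set L : E 3 ≃ₗᵢ[ℝ] E 3 := (ℝ ∙ (e3 - ω))ᗮ.reflection with hL
  have hLe : L e3 = ω := Submodule.reflection_sub (by rw [norm_e3, hωn])
  have hmp := sg_inv L
  have hemb : MeasurableEmbedding L := L.toHomeomorph.measurableEmbedding
  have hgm : Measurable (tr f m lam) := by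
    have h1 : Measurable fun x => min (f x) lam := hf.min measurable_const
    exact (Complex.measurable_ofReal.comp (measurable_coe_nnreal_real.comp h1)).mul hm
  have hgb : ∀ x, ‖tr f m lam x‖ ≤ lam := fun x => by
    simp only [tr]
    rw [norm_mul, Complex.norm_real, Real.norm_of_nonneg (NNReal.coe_nonneg _)]
    calc ((min (f x) lam : ℝ≥0) : ℝ) * ‖m x‖ ≤ lam * 1 := by
          gcongr
          · exact min_le_right _ _
          · exact hm1 x
      _ = lam := mul_one _
  set F : E 3 → ℂ := fun w => cexp (-((r * ⟪e3, w⟫ : ℝ) : ℂ) * I) * tr f m lam (L w) with hF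
  have hexm : Measurable fun w : E 3 => cexp (-((r * ⟪e3, w⟫ : ℝ) : ℂ) * I) := by
    have : Continuous fun w : E 3 => cexp (-((r * ⟪e3, w⟫ : ℝ) : ℂ) * I) := by fun_prop
    exact this.measurable
  have hFm : Measurable F := hexm.mul (hgm.comp L.continuous.measurable)
  have hexn : ∀ t : ℝ, ‖cexp (-((t : ℝ) : ℂ) * I)‖ = 1 := fun t => by
    rw [show -((t : ℝ) : ℂ) * I = ((-t : ℝ) : ℂ) * I by push_cast; ring,
      Complex.norm_exp_ofReal_mul_I]
  have hFb : ∀ w, ‖F w‖ ≤ lam := fun w => by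
    simp only [hF]
    rw [norm_mul, hexn, one_mul]
    exact hgb _
  have h1 : T (tr f m lam) ξ = ∫ w, F w ∂(sg 3) := by
    unfold T
    rw [← hmp.integral_comp hemb (fun w => cexp (-((⟪ξ, w⟫ : ℝ) : ℂ) * I) * tr f m lam w)]
    congr 1
    ext w
    simp only [hF]
    congr 3
    rw [hξω, ← hLe, real_inner_smul_left, L.inner_map_map]
  rw [h1, arch_int F hFm ⟨lam, hFb⟩]
  have hint : Integrable (fun p : ℝ × ℝ => F (pt p.1 p.2))
      ((volume.restrict (Ioo (-1 : ℝ) 1)).prod (volume.restrict (Ioo (-Real.pi) Real.pi))) :=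
    Integrable.of_bound (C := lam) (hFm.comp measurable_pt).aestronglyMeasurable
      (Filter.Eventually.of_forall fun p => hFb _)
  rw [integral_integral_swap hint]
  have h2 : ∀ φ : ℝ, ‖∫ c in Ioo (-1 : ℝ) 1, F (pt c φ)‖ ≤ 3 / 2 * Real.pi * N * lam / r := by
    intro φ
    set v : E 3 := L (hz φ) with hv
    have hvn : ‖v‖ = 1 := by rw [hv, L.norm_map, norm_hz]
    have hov : ⟪ω, v⟫ = 0 := by rw [← hLe, hv, L.inner_map_map, e3_hz]
    set ψ : ℝ → ℝ≥0 := fun u => if u ∈ Ioo (-1 : ℝ) 1 then f (u • ω + sc u • v) else 0 with hψ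
    have hψm : Measurable ψ := by
      refine Measurable.ite measurableSet_Ioo (hf.comp ?_) measurable_const
      exact (measurable_id.smul_const ω).add (measurable_sc.smul_const v)
    have hμm : Measurable fun u : ℝ => m (u • ω + sc u • v) :=
      hm.comp ((measurable_id.smul_const ω).add (measurable_sc.smul_const v))
    have h3 := osc hψm (lvl_of hM hωn hvn hov) (fun u hu => by simp only [hψ]; rw [if_neg hu])
      hμm (fun u => hm1 _) (var_of hmV hωn hvn hov) lam hr0
    have h4 : ∫ c in Ioo (-1 : ℝ) 1, F (pt c φ) =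
        ∫ u, cexp (-((r * u : ℝ) : ℂ) * I) * (((min (ψ u) lam : ℝ≥0) : ℂ) * m (u • ω + sc u • v)) := by
      rw [← integral_indicator measurableSet_Ioo]
      congr 1
      ext u
      by_cases hu : u ∈ Ioo (-1 : ℝ) 1
      · rw [indicator_of_mem hu]
        simp only [hF, hψ, tr]
        rw [if_pos hu, e3_pt, pt_eq, map_add, map_smul, map_smul, hLe]
      · rw [indicator_of_notMem hu]
        simp only [hψ]
        rw [if_neg hu]
        simp
    rw [h4]
    exact h3
  calc ‖∫ φ in Ioo (-Real.pi) Real.pi, ∫ c in Ioo (-1 : ℝ) 1, F (pt c φ)‖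
      ≤ (3 / 2 * Real.pi * N * lam / r) * (volume.restrict (Ioo (-Real.pi) Real.pi)).real univ :=
        norm_integral_le_of_norm_le_const (Filter.Eventually.of_forall h2)
    _ = 3 * Real.pi ^ 2 * N * lam / r := by
        rw [measureReal_restrict_apply_univ, Real.volume_real_Ioo_of_le (by linarith [Real.pi_pos])]
        ring

end Pool.Agent.V1172.GC
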