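import Mathlib
import Pool.Agent.H789R2.FR.L2
import Pool.Agent.H789R2.FR.Core
import Pool.Agent.V1172.GC.Ptw

set_option autoImplicit false

/-! The `L²` estimate on balls, and a dyadic sum. -/

namespace Pool.Agent.V1172.GC

open MeasureTheory Set Metric Complex
open Pool.Agent.H789R2.FR
open scoped ENNReal NNReal RealInnerProductSpace

theorem ah : ∃ C : ℝ, 0 < C ∧ ∀ g : E 3 → ℂ, Measurable g → (∃ M : ℝ, ∀ x, ‖g x‖ ≤ M) →
    ∀ R : ℝ, 0 < R → ∫⁻ x in {x : E 3 | ‖x‖ < R}, ‖T g x‖ₑ ^ 2 ≤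
      ENNReal.ofReal (C * R) * ∫⁻ w, ‖g w‖ₑ ^ 2 ∂(sg 3) := by
  obtain ⟨C, hC, H⟩ := L2_bound 3 (by norm_num)
  refine ⟨Real.exp 1 * C, by positivity, fun g hg hM R hR => ?_⟩
  have hfin := sg_finite 3
  have h1 := H g hg hM R hR 0
  obtain ⟨M, hM⟩ := hM
  have hM0 : 0 ≤ M := (norm_nonneg _).trans (hM 0)
  have hb := T_bound (n := 3) hM
  have hW : Integrable fun x : E 3 => Real.exp (-‖x - 0‖ ^ 2 / R ^ 2) * ‖T g x‖ ^ 2 := by
    have h2 := L2.integrable_W (n := 3) hR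
    have h3 : Integrable fun x : E 3 => ‖T g x‖ ^ 2 * L2.W R x := by
      refine h2.bdd_mul (c := (M * (sg 3).real univ) ^ 2) ((T_meas hg).norm.pow_const 2).aestronglyMeasurable
        (Filter.Eventually.of_forall fun x => ?_)
      rw [Real.norm_of_nonneg (by positivity)]
      exact pow_le_pow_left₀ (norm_nonneg _) (hb x) 2
    refine h3.congr (Filter.Eventually.of_forall fun x => ?_)
    simp only [L2.W, sub_zero]
    ring
  have hgi : Integrable (fun w => ‖g w‖ ^ 2) (sg 3) := by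
    refine Integrable.of_bound (C := M ^ 2) (hg.norm.pow_const 2).aestronglyMeasurable
      (Filter.Eventually.of_forall fun x => ?_)
    rw [Real.norm_of_nonneg (by positivity)]
    exact pow_le_pow_left₀ (norm_nonneg _) (hM x) 2
  have hmeasS : MeasurableSet {x : E 3 | ‖x‖ < R} := measurableSet_lt measurable_norm measurable_const
  have he : ∀ (z : ℂ), ‖z‖ₑ ^ 2 = ENNReal.ofReal (‖z‖ ^ 2) := fun z => by
    rw [ENNReal.ofReal_pow (norm_nonneg _), ofReal_norm]
  calc ∫⁻ x in {x : E 3 | ‖x‖ < R}, ‖T g x‖ₑ ^ 2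
      ≤ ∫⁻ x in {x : E 3 | ‖x‖ < R}, ENNReal.ofReal (Real.exp 1 *
          (Real.exp (-‖x - 0‖ ^ 2 / R ^ 2) * ‖T g x‖ ^ 2)) := by
        refine setLIntegral_mono' hmeasS fun x hx => ?_
        rw [he]
        apply ENNReal.ofReal_le_ofReal
        rw [← mul_assoc, ← Real.exp_add]
        have : 1 ≤ Real.exp (1 + -‖x - 0‖ ^ 2 / R ^ 2) := by
          apply Real.one_le_exp
          rw [sub_zero, neg_div]
          have h4 : ‖x‖ ^ 2 / R ^ 2 ≤ 1 := by
            rw [div_le_one (by positivity)]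
            exact pow_le_pow_left₀ (norm_nonneg _) (le_of_lt hx) 2
          linarith
        nlinarith [sq_nonneg ‖T g x‖]
    _ ≤ ∫⁻ x, ENNReal.ofReal (Real.exp 1 *
          (Real.exp (-‖x - 0‖ ^ 2 / R ^ 2) * ‖T g x‖ ^ 2)) := setLIntegral_le_lintegral _ _
    _ = ENNReal.ofReal (∫ x, Real.exp 1 *
          (Real.exp (-‖x - 0‖ ^ 2 / R ^ 2) * ‖T g x‖ ^ 2)) := by
        rw [ofReal_integral_eq_lintegral_ofReal (hW.const_mul _)
          (Filter.Eventually.of_forall fun x => by positivity)]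
    _ ≤ ENNReal.ofReal (Real.exp 1 * C * R * ∫ w, ‖g w‖ ^ 2 ∂(sg 3)) := by
        apply ENNReal.ofReal_le_ofReal
        rw [integral_const_mul]
        calc Real.exp 1 * ∫ x, Real.exp (-‖x - 0‖ ^ 2 / R ^ 2) * ‖T g x‖ ^ 2
            ≤ Real.exp 1 * (C * R * ∫ w, ‖g w‖ ^ 2 ∂(sg 3)) := by gcongr
          _ = _ := by ring
    _ = _ := by
        rw [ENNReal.ofReal_mul (by positivity), ofReal_integral_eq_lintegral_ofReal hgi
          (Filter.Eventually.of_forall fun x => by positivity)]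
        simp only [he]

/-- dyadic sum -/
lemma dyadic (a y : ℝ) (ha : 0 < a) (hy : 0 ≤ y) :
    ∑' j : ℤ, (if a * (2 : ℝ) ^ j < y then ENNReal.ofReal ((2 : ℝ) ^ j) else 0) ≤
      ENNReal.ofReal (2 * y / a) := by
  rcases hy.eq_or_lt with rfl | hy
  · have : ∀ j : ℤ, (if a * (2 : ℝ) ^ j < 0 then ENNReal.ofReal ((2 : ℝ) ^ j) else 0) = 0 := fun j => by
      rw [if_neg (not_lt.2 (by positivity))]
    simp [this]
  obtain ⟨J, hJ1, hJ2⟩ := exists_mem_Ioc_zpow (y := (2 : ℝ)) (x := y / a) (by positivity) (by norm_num)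
  -- 2 ^ J < y / a ≤ 2 ^ (J + 1)
  have hinj : Function.Injective fun k : ℕ => J - (k : ℤ) := fun k l h => by
    simp only [sub_right_inj, Nat.cast_inj] at h; exact h
  have hsupp : Function.support (fun j : ℤ => if a * (2 : ℝ) ^ j < y then
      ENNReal.ofReal ((2 : ℝ) ^ j) else 0) ⊆ range fun k : ℕ => J - (k : ℤ) := by
    intro j hj
    simp only [Function.mem_support, ne_eq, ite_eq_right_iff, not_forall] at hj
    obtain ⟨h1, -⟩ := hj
    have h2 : (2 : ℝ) ^ j < (2 : ℝ) ^ (J + 1) := by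
      refine lt_of_lt_of_le ?_ hJ2
      rw [lt_div_iff₀ ha]; linarith
    have h3 : j < J + 1 := (zpow_lt_zpow_iff_right₀ (by norm_num)).1 h2
    refine ⟨(J - j).toNat, ?_⟩
    simp only
    omega
  rw [← hinj.tsum_eq hsupp]
  calc ∑' k : ℕ, (if a * (2 : ℝ) ^ (J - (k : ℤ)) < y then ENNReal.ofReal ((2 : ℝ) ^ (J - (k : ℤ))) else 0)
      ≤ ∑' k : ℕ, ENNReal.ofReal ((2 : ℝ) ^ J) * (2⁻¹ : ℝ≥0∞) ^ k := by
        refine ENNReal.tsum_le_tsum fun k => ?_
        split_ifs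
        · rw [zpow_sub₀ (by norm_num), zpow_natCast, ENNReal.ofReal_div_of_pos (by positivity),
            ENNReal.ofReal_pow (by norm_num), div_eq_mul_inv, ENNReal.inv_pow]
          simp
        · exact zero_le
    _ = ENNReal.ofReal ((2 : ℝ) ^ J) * 2 := by
        rw [ENNReal.tsum_mul_left, ENNReal.tsum_geometric, ENNReal.one_sub_inv_two, inv_inv]
    _ ≤ ENNReal.ofReal (2 * y / a) := by
        rw [show (2 : ℝ≥0∞) = ENNReal.ofReal 2 by simp, ← ENNReal.ofReal_mul (by positivity)]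
        apply ENNReal.ofReal_le_ofReal
        have : 2 * y / a = y / a * 2 := by ring
        rw [this]
        gcongr

end Pool.Agent.V1172.GC
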