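import Mathlib
import Pool.Agent.V1172.GC.Ah

set_option autoImplicit false

/-! The level set estimate. -/

namespace Pool.Agent.V1172.GC

open MeasureTheory Set Metric Complex
open Pool.Agent.H789R2.FR
open scoped ENNReal NNReal RealInnerProductSpace

/-- the mass above the level `t` -/
noncomputable def Lam (f : E 3 → ℝ≥0) (t : ℝ≥0) : ℝ≥0∞ := ∫⁻ x, ((f x - t : ℝ≥0) : ℝ≥0∞) ∂(sg 3)

/-- the density `f m` -/
noncomputable def cm (f : E 3 → ℝ≥0) (m : E 3 → ℂ) (x : E 3) : ℂ := ((f x : ℝ≥0) : ℂ) * m x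

lemma cm_meas {f : E 3 → ℝ≥0} (hf : Measurable f) {m : E 3 → ℂ} (hm : Measurable m) :
    Measurable (cm f m) :=
  (Complex.measurable_ofReal.comp (measurable_coe_nnreal_real.comp hf)).mul hm

lemma cm_norm (f : E 3 → ℝ≥0) {m : E 3 → ℂ} (hm1 : ∀ x, ‖m x‖ ≤ 1) (x : E 3) : ‖cm f m x‖ ≤ f x := by
  rw [cm, norm_mul, Complex.norm_real, Real.norm_of_nonneg (NNReal.coe_nonneg _)]
  exact mul_le_of_le_one_right (NNReal.coe_nonneg _) (hm1 x)

lemma cm_enorm (f : E 3 → ℝ≥0) {m : E 3 → ℂ} (hm1 : ∀ x, ‖m x‖ ≤ 1) (x : E 3) : ‖cm f m x‖ₑ ≤ f x := by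
  rw [← ofReal_norm, ← ENNReal.ofReal_coe_nnreal]
  exact ENNReal.ofReal_le_ofReal (cm_norm f hm1 x)

lemma cm_int {f : E 3 → ℝ≥0} (hf : Measurable f) {m : E 3 → ℂ} (hm : Measurable m)
    (hm1 : ∀ x, ‖m x‖ ≤ 1) (hfin : ∫⁻ x, f x ∂(sg 3) ≠ ∞) (ξ : E 3) :
    Integrable (fun w => cexp (-((⟪ξ, w⟫ : ℝ) : ℂ) * I) * cm f m w) (sg 3) := by
  refine ⟨((kern_cont ξ).measurable.mul (cm_meas hf hm)).aestronglyMeasurable, ?_⟩
  rw [HasFiniteIntegral]
  refine lt_of_le_of_lt (lintegral_mono fun w => ?_) (lt_top_iff_ne_top.2 hfin)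
  rw [enorm_mul, ← ofReal_norm, kern_norm, ENNReal.ofReal_one, one_mul]
  exact cm_enorm f hm1 w

lemma T_split {f g h : E 3 → ℝ≥0} (hg : Measurable g) (hh : Measurable h) {m : E 3 → ℂ}
    (hm : Measurable m) (hm1 : ∀ x, ‖m x‖ ≤ 1)
    (hgf : ∫⁻ x, g x ∂(sg 3) ≠ ∞) (hhf : ∫⁻ x, h x ∂(sg 3) ≠ ∞) (e : ∀ x, f x = g x + h x)
    (ξ : E 3) : T (cm f m) ξ = T (cm g m) ξ + T (cm h m) ξ := by
  unfold T
  rw [← integral_add (cm_int hg hm hm1 hgf ξ) (cm_int hh hm hm1 hhf ξ)]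
  congr 1
  ext w
  simp only [cm, e]
  push_cast
  ring

lemma T_enorm (f : E 3 → ℝ≥0) {m : E 3 → ℂ} (hm1 : ∀ x, ‖m x‖ ≤ 1) (ξ : E 3) :
    ‖T (cm f m) ξ‖ₑ ≤ ∫⁻ x, f x ∂(sg 3) := by
  unfold T
  refine (enorm_integral_le_lintegral_enorm _).trans (lintegral_mono fun w => ?_)
  rw [enorm_mul, ← ofReal_norm, kern_norm, ENNReal.ofReal_one, one_mul]
  exact cm_enorm f hm1 w

lemma Lam_anti (f : E 3 → ℝ≥0) : Antitone (Lam f) := fun s t hst =>
  lintegral_mono fun x => by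
    have : f x - t ≤ f x - s := tsub_le_tsub_left hst _
    exact ENNReal.coe_le_coe.2 this

lemma Lam_lip {f : E 3 → ℝ≥0} {s t : ℝ≥0} (hst : s ≤ t) :
    Lam f s ≤ Lam f t + (t - s : ℝ≥0) * (sg 3) univ := by
  unfold Lam
  rw [← lintegral_const, ← lintegral_add_right _ measurable_const]
  refine lintegral_mono fun x => ?_
  have : f x - s ≤ (f x - t) + (t - s) := by
    rw [tsub_le_iff_right]
    calc f x ≤ (f x - t) + t := le_tsub_add
      _ = (f x - t) + ((t - s) + s) := by rw [tsub_add_cancel_of_le hst]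
      _ = _ := by ring
  rw [← ENNReal.coe_add]
  exact ENNReal.coe_le_coe.2 this

lemma exists_level {f : E 3 → ℝ≥0} (hf : Measurable f) (hfin : ∫⁻ x, f x ∂(sg 3) ≠ ∞)
    {ε : ℝ≥0∞} (hε : 0 < ε) : ∃ s : ℝ≥0, Lam f s ≤ ε ∧ ∀ t < s, ε < Lam f t := by
  have hfinm := sg_finite 3
  set S : Set ℝ≥0 := {t | Lam f t ≤ ε} with hS
  have hne : S.Nonempty := by
    have h1 : Filter.Tendsto (fun n : ℕ => Lam f (n : ℝ≥0)) Filter.atTop (nhds 0) := by
      have h2 : Filter.Tendsto (fun n : ℕ => ∫⁻ x, ((f x - (n : ℝ≥0) : ℝ≥0) : ℝ≥0∞) ∂(sg 3)) Filter.atTop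
          (nhds (∫⁻ _x, (0 : ℝ≥0∞) ∂(sg 3))) := by
        refine tendsto_lintegral_of_dominated_convergence (fun x => (f x : ℝ≥0∞)) (fun n => ?_)
          (fun n => Filter.Eventually.of_forall fun x => ?_) hfin
          (Filter.Eventually.of_forall fun x => ?_)
        · exact (hf.sub measurable_const).coe_nnreal_ennreal
        · exact ENNReal.coe_le_coe.2 tsub_le_self
        · refine tendsto_const_nhds.congr' ?_
          obtain ⟨n, hn⟩ := exists_nat_ge (f x)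
          filter_upwards [Filter.eventually_ge_atTop n] with k hk
          have : f x ≤ (k : ℝ≥0) := hn.trans (by exact_mod_cast hk)
          rw [tsub_eq_zero_of_le this]
          rfl
      rw [lintegral_zero] at h2
      exact h2
    obtain ⟨n, hn⟩ := (h1.eventually_lt_const hε).exists
    exact ⟨n, hn.le⟩
  refine ⟨sInf S, ?_, fun t ht => ?_⟩
  · refine ENNReal.le_of_forall_pos_le_add fun δ hδ _ => ?_
    -- a point of `S` close to the infimum
    set M : ℝ≥0 := ((sg 3) univ).toNNReal with hM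
    have hMe : (sg 3) univ = M := (ENNReal.coe_toNNReal (measure_ne_top _ _)).symm
    have hpos : 0 < δ / (M + 1) := by positivity
    obtain ⟨t, ht, htlt⟩ := exists_lt_of_csInf_lt hne (lt_add_of_pos_right (sInf S) hpos)
    have hst : sInf S ≤ t := csInf_le (OrderBot.bddBelow S) ht
    refine (Lam_lip hst).trans (add_le_add ht ?_)
    rw [hMe]
    have h3 : (t - sInf S) * M ≤ δ := by
      have h4 : t - sInf S ≤ δ / (M + 1) := by
        rw [tsub_le_iff_left]; exact htlt.le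
      calc (t - sInf S) * M ≤ δ / (M + 1) * (M + 1) := by gcongr; exact le_self_add
        _ = δ := by field_simp
    exact_mod_cast h3
  · by_contra hcon
    exact absurd (csInf_le (OrderBot.bddBelow S) (not_lt.1 hcon)) (not_le.2 ht)

/-- **The level set estimate.** -/
theorem weak : ∃ C : ℝ, 0 < C ∧ ∀ (N : ℕ) (f : E 3 → ℝ≥0) (m : E 3 → ℂ), 1 ≤ N → Measurable f →
    Measurable m → (∀ x, ‖m x‖ ≤ 1) → Vr N m →
    ∫⁻ x, f x ∂(sg 3) ≠ ∞ → Md N f → ∀ lam : ℝ, 0 < lam → ∃ s : ℝ≥0,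
      (∀ t < s, ENNReal.ofReal (lam / 4) < Lam f t) ∧
      volume {ξ | lam < ‖T (cm f m) ξ‖} ≤ ENNReal.ofReal (C * N / lam ^ 3) *
        ∫⁻ x, ((min (f x) s : ℝ≥0) : ℝ≥0∞) ^ 3 ∂(sg 3) := by
  obtain ⟨C, hC, AH⟩ := ah
  refine ⟨192 * Real.pi ^ 2 * C, by positivity, fun N f μ hN hf hμ hμ1 hμV hfin hM lam hlam => ?_⟩
  have hfinm := sg_finite 3
  obtain ⟨s, hs1, hs2⟩ := exists_level hf hfin (ε := ENNReal.ofReal (lam / 4))
    (by rw [ENNReal.ofReal_pos]; positivity)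
  refine ⟨s, hs2, ?_⟩
  have hN0 : (0 : ℝ) < N := by exact_mod_cast hN
  set a : ℝ := lam / (12 * Real.pi ^ 2 * N) with ha
  have ha0 : 0 < a := by positivity
  set m : E 3 → ℝ≥0 := fun x => min (f x) s with hm
  have hmm : Measurable m := hf.min measurable_const
  set sj : ℤ → ℝ≥0 := fun j => (a * (2 : ℝ) ^ j).toNNReal with hsj
  have hsjc : ∀ j, (sj j : ℝ) = a * (2 : ℝ) ^ j := fun j => Real.coe_toNNReal _ (by positivity)
  set h : ℤ → E 3 → ℝ≥0 := fun j x => m x - sj j with hh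
  have hhm : ∀ j, Measurable (h j) := fun j => hmm.sub measurable_const
  have hle : ∀ g : E 3 → ℝ≥0, (∀ x, g x ≤ f x) → ∫⁻ x, g x ∂(sg 3) ≠ ∞ := fun g hg =>
    ne_top_of_le_ne_top hfin (lintegral_mono fun x => ENNReal.coe_le_coe.2 (hg x))
  set B : ℤ → Set (E 3) := fun j => {ξ | ‖ξ‖ < (2 : ℝ) ^ (j + 1)} with hB
  set D : ℤ → Set (E 3) := fun j => {ξ | ENNReal.ofReal (lam / 2) ≤ ‖T (cm (h j) μ) ξ‖ₑ} with hD
  -- pointwise
  have hsub : {ξ : E 3 | lam < ‖T (cm f μ) ξ‖} ⊆ {0} ∪ ⋃ j, (B j ∩ D j) := by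
    intro ξ hξ
    by_cases h0 : ξ = 0
    · exact Or.inl h0
    right
    obtain ⟨j, hj1, hj2⟩ := exists_mem_Ico_zpow (y := (2 : ℝ)) (x := ‖ξ‖) (norm_pos_iff.2 h0)
      (by norm_num)
    refine mem_iUnion.2 ⟨j, hj2, ?_⟩
    have e1 : T (cm f μ) ξ = T (cm m μ) ξ + T (cm (fun x => f x - s) μ) ξ := by
      refine T_split hmm (hf.sub measurable_const) hμ hμ1 (hle _ fun x => min_le_left _ _)
        (hle _ fun x => tsub_le_self) (fun x => ?_) ξ
      simp only [hm]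
      rw [add_comm]
      exact (tsub_add_min).symm
    have e2 : T (cm m μ) ξ = T (cm (fun x => min (m x) (sj j)) μ) ξ + T (cm (h j) μ) ξ := by
      refine T_split (hmm.min measurable_const) (hhm j) hμ hμ1
        (hle _ fun x => (min_le_left _ _).trans (min_le_left _ _))
        (hle _ fun x => tsub_le_self.trans (min_le_left _ _)) (fun x => ?_) ξ
      simp only [hh]
      rw [add_comm]
      exact (tsub_add_min).symm
    have b1 : ‖T (cm (fun x => f x - s) μ) ξ‖ ≤ lam / 4 := by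
      have := (T_enorm (fun x => f x - s) hμ1 ξ).trans hs1
      rw [← ofReal_norm] at this
      exact (ENNReal.ofReal_le_ofReal_iff (by positivity)).1 this
    have b2 : ‖T (cm (fun x => min (m x) (sj j)) μ) ξ‖ ≤ lam / 4 := by
      have e3 : (cm (fun x => min (m x) (sj j)) μ) = tr f μ (min s (sj j)) := by
        ext x
        simp only [cm, tr, hm, min_assoc]
      rw [e3]
      refine (decay hf hM hμ hμ1 hμV _ ξ h0).trans ?_
      have h1 : ((min s (sj j) : ℝ≥0) : ℝ) ≤ a * (2 : ℝ) ^ j := by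
        rw [← hsjc]; exact_mod_cast min_le_right _ _
      rw [div_le_iff₀ (norm_pos_iff.2 h0)]
      calc 3 * Real.pi ^ 2 * N * ((min s (sj j) : ℝ≥0) : ℝ)
          ≤ 3 * Real.pi ^ 2 * N * (a * (2 : ℝ) ^ j) := by gcongr
        _ = lam / 4 * (2 : ℝ) ^ j := by rw [ha]; field_simp; ring
        _ ≤ lam / 4 * ‖ξ‖ := by gcongr
    have hξ' : lam < ‖T (cm f μ) ξ‖ := hξ
    rw [e1, e2] at hξ'
    have h5 := norm_add_le (T (cm (fun x => min (m x) (sj j)) μ) ξ + T (cm (h j) μ) ξ)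
      (T (cm (fun x => f x - s) μ) ξ)
    have h6 := norm_add_le (T (cm (fun x => min (m x) (sj j)) μ) ξ) (T (cm (h j) μ) ξ)
    show ENNReal.ofReal (lam / 2) ≤ ‖T (cm (h j) μ) ξ‖ₑ
    rw [← ofReal_norm]
    apply ENNReal.ofReal_le_ofReal
    linarith
  -- one shell
  have hshell : ∀ j, volume (B j ∩ D j) ≤ ENNReal.ofReal (8 * C / lam ^ 2) *
      (ENNReal.ofReal ((2 : ℝ) ^ j) * ∫⁻ x, ((h j x : ℝ≥0) : ℝ≥0∞) ^ 2 ∂(sg 3)) := by
    intro j
    have h1 := AH (cm (h j) μ) (cm_meas (hhm j) hμ) ⟨s, fun x => (cm_norm _ hμ1 x).trans (by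
      exact_mod_cast (tsub_le_self.trans (min_le_right _ _) : h j x ≤ s))⟩ ((2 : ℝ) ^ (j + 1))
      (by positivity)
    have hBm : MeasurableSet (B j) := measurableSet_lt measurable_norm measurable_const
    have h2 : ENNReal.ofReal (lam / 2) ^ 2 * volume (B j ∩ D j) ≤
        ∫⁻ x in B j, ‖T (cm (h j) μ) x‖ₑ ^ 2 := by
      have h3 := mul_meas_ge_le_lintegral₀ (μ := volume.restrict (B j))
        (f := fun x => ‖T (cm (h j) μ) x‖ₑ ^ 2)
        ((T_meas (cm_meas (hhm j) hμ)).enorm.pow_const 2).aemeasurable (ENNReal.ofReal (lam / 2) ^ 2)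
      rw [Measure.restrict_apply' hBm] at h3
      refine le_trans (mul_le_mul' le_rfl (measure_mono ?_)) h3
      intro x hx
      refine ⟨?_, hx.1⟩
      have h9 : ENNReal.ofReal (lam / 2) ≤ ‖T (cm (h j) μ) x‖ₑ := hx.2
      show ENNReal.ofReal (lam / 2) ^ 2 ≤ ‖T (cm (h j) μ) x‖ₑ ^ 2
      gcongr
    have hl2 : ENNReal.ofReal (lam / 2) ^ 2 = ENNReal.ofReal (lam ^ 2 / 4) := by
      rw [← ENNReal.ofReal_pow (by positivity)]; congr 1; ring
    have h4 : volume (B j ∩ D j) ≤ ENNReal.ofReal (4 / lam ^ 2) *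
        (ENNReal.ofReal (lam / 2) ^ 2 * volume (B j ∩ D j)) := by
      rw [hl2, ← mul_assoc, ← ENNReal.ofReal_mul (by positivity)]
      have : 4 / lam ^ 2 * (lam ^ 2 / 4) = 1 := by field_simp
      rw [this, ENNReal.ofReal_one, one_mul]
    refine h4.trans ?_
    calc ENNReal.ofReal (4 / lam ^ 2) * (ENNReal.ofReal (lam / 2) ^ 2 * volume (B j ∩ D j))
        ≤ ENNReal.ofReal (4 / lam ^ 2) * (ENNReal.ofReal (C * (2 : ℝ) ^ (j + 1)) *
          ∫⁻ w, ‖cm (h j) μ w‖ₑ ^ 2 ∂(sg 3)) := mul_le_mul' le_rfl (h2.trans h1)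
      _ ≤ ENNReal.ofReal (4 / lam ^ 2) * (ENNReal.ofReal (C * (2 : ℝ) ^ (j + 1)) *
          ∫⁻ w, ((h j w : ℝ≥0) : ℝ≥0∞) ^ 2 ∂(sg 3)) := by
          refine mul_le_mul' le_rfl (mul_le_mul' le_rfl (lintegral_mono fun w => ?_))
          have := cm_enorm (h j) hμ1 w
          gcongr
      _ = _ := by
          rw [← mul_assoc, ← mul_assoc, ← ENNReal.ofReal_mul (by positivity),
            ← ENNReal.ofReal_mul (by positivity)]
          congr 2
          rw [zpow_add_one₀ (by norm_num)]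
          ring
  calc volume {ξ : E 3 | lam < ‖T (cm f μ) ξ‖}
      ≤ volume ({0} ∪ ⋃ j, (B j ∩ D j)) := measure_mono hsub
    _ ≤ volume ({0} : Set (E 3)) + ∑' j, volume (B j ∩ D j) :=
        (measure_union_le _ _).trans (by gcongr; exact measure_iUnion_le _)
    _ = ∑' j, volume (B j ∩ D j) := by rw [measure_singleton, zero_add]
    _ ≤ ∑' j, ENNReal.ofReal (8 * C / lam ^ 2) *
        (ENNReal.ofReal ((2 : ℝ) ^ j) * ∫⁻ x, ((h j x : ℝ≥0) : ℝ≥0∞) ^ 2 ∂(sg 3)) :=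
        ENNReal.tsum_le_tsum hshell
    _ = ENNReal.ofReal (8 * C / lam ^ 2) * ∫⁻ x, ∑' j, ENNReal.ofReal ((2 : ℝ) ^ j) *
        ((h j x : ℝ≥0) : ℝ≥0∞) ^ 2 ∂(sg 3) := by
        rw [ENNReal.tsum_mul_left, lintegral_tsum]
        · congr 2
          ext j
          rw [lintegral_const_mul _ ((hhm j).coe_nnreal_ennreal.pow_const 2)]
        · intro j
          exact (((hhm j).coe_nnreal_ennreal.pow_const 2).const_mul _).aemeasurable
    _ ≤ ENNReal.ofReal (8 * C / lam ^ 2) * ∫⁻ x, ENNReal.ofReal (2 / a) *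
        ((m x : ℝ≥0) : ℝ≥0∞) ^ 3 ∂(sg 3) := by
        gcongr with x
        calc ∑' j, ENNReal.ofReal ((2 : ℝ) ^ j) * ((h j x : ℝ≥0) : ℝ≥0∞) ^ 2
            ≤ ∑' j, (if a * (2 : ℝ) ^ j < m x then ENNReal.ofReal ((2 : ℝ) ^ j) else 0) *
              ((m x : ℝ≥0) : ℝ≥0∞) ^ 2 := by
              refine ENNReal.tsum_le_tsum fun j => ?_
              by_cases hc : a * (2 : ℝ) ^ j < m x
              · rw [if_pos hc]
                gcongr
                exact tsub_le_self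
              · rw [if_neg hc]
                have : h j x = 0 := by
                  simp only [hh]
                  apply tsub_eq_zero_of_le
                  rw [not_lt, ← hsjc] at hc
                  exact_mod_cast hc
                rw [this]
                simp
          _ = (∑' j : ℤ, (if a * (2 : ℝ) ^ j < m x then ENNReal.ofReal ((2 : ℝ) ^ j) else 0)) *
              ((m x : ℝ≥0) : ℝ≥0∞) ^ 2 := ENNReal.tsum_mul_right
          _ ≤ ENNReal.ofReal (2 * (m x : ℝ) / a) * ((m x : ℝ≥0) : ℝ≥0∞) ^ 2 := by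
              gcongr
              exact dyadic a (m x) ha0 (NNReal.coe_nonneg _)
          _ = _ := by
              rw [show 2 * (m x : ℝ) / a = 2 / a * (m x : ℝ) by ring,
                ENNReal.ofReal_mul (by positivity), ENNReal.ofReal_coe_nnreal]
              ring
    _ = _ := by
        rw [lintegral_const_mul _ (hmm.coe_nnreal_ennreal.pow_const 3), ← mul_assoc,
          ← ENNReal.ofReal_mul (by positivity)]
        congr 2
        rw [ha]
        field_simp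
        ring

end Pool.Agent.V1172.GC
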