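import Mathlib
import Pool.Agent.V1172.GC.Weak

set_option autoImplicit false

/-! Integration over the levels. -/

namespace Pool.Agent.V1172.GC

open MeasureTheory Set Metric Complex
open Pool.Agent.H789R2.FR
open scoped ENNReal NNReal RealInnerProductSpace

/-- the distribution function -/
noncomputable def dst (f : E 3 → ℝ≥0) (t : ℝ) : ℝ≥0∞ := (sg 3) {x | t < f x}

lemma dst_meas (f : E 3 → ℝ≥0) : Measurable (dst f) := by
  have : Antitone (dst f) := fun s t hst => measure_mono fun x hx => lt_of_le_of_lt hst hx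
  exact this.measurable

/-- the mass above the level, real levels -/
noncomputable def Lr (f : E 3 → ℝ≥0) (t : ℝ) : ℝ≥0∞ := Lam f t.toNNReal

lemma Lr_meas (f : E 3 → ℝ≥0) : Measurable (Lr f) := by
  have : Antitone (Lr f) := fun s t hst => Lam_anti f (Real.toNNReal_le_toNNReal hst)
  exact this.measurable

/-- the cut-off -/
noncomputable def ind (f : E 3 → ℝ≥0) (lam t : ℝ) : ℝ≥0∞ := if ENNReal.ofReal (lam / 4) < Lr f t then 1 else 0

lemma ind_meas (f : E 3 → ℝ≥0) : Measurable fun z : ℝ × ℝ => ind f z.1 z.2 := by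
  refine Measurable.ite (measurableSet_lt ?_ ((Lr_meas f).comp measurable_snd)) measurable_const
    measurable_const
  exact (measurable_fst.div_const 4).ennreal_ofReal

lemma cube (f : E 3 → ℝ≥0) (hf : Measurable f) (lam : ℝ) (s : ℝ≥0)
    (hs : ∀ t < s, ENNReal.ofReal (lam / 4) < Lam f t) :
    ∫⁻ x, ((min (f x) s : ℝ≥0) : ℝ≥0∞) ^ 3 ∂(sg 3) ≤
      ENNReal.ofReal 3 * ∫⁻ t in Ioi (0 : ℝ), dst f t * ind f lam t * ENNReal.ofReal (t ^ (2 : ℝ)) := by
  have h1 := lintegral_rpow_eq_lintegral_meas_lt_mul (sg 3)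
    (f := fun x => ((min (f x) s : ℝ≥0) : ℝ)) (Filter.Eventually.of_forall fun x => NNReal.coe_nonneg _)
    (measurable_coe_nnreal_real.comp (hf.min measurable_const)).aemeasurable (p := 3) (by norm_num)
  have e1 : ∫⁻ x, ((min (f x) s : ℝ≥0) : ℝ≥0∞) ^ 3 ∂(sg 3) =
      ∫⁻ x, ENNReal.ofReal (((min (f x) s : ℝ≥0) : ℝ) ^ (3 : ℝ)) ∂(sg 3) := by
    refine lintegral_congr fun x => ?_
    rw [show (3 : ℝ) = ((3 : ℕ) : ℝ) by norm_num, Real.rpow_natCast,
      ENNReal.ofReal_pow (NNReal.coe_nonneg _), ENNReal.ofReal_coe_nnreal]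
  rw [e1, h1]
  gcongr ENNReal.ofReal 3 * ?_
  refine setLIntegral_mono' measurableSet_Ioi fun t ht => ?_
  have ht0 : (0 : ℝ) < t := ht
  rw [show (3 : ℝ) - 1 = 2 by norm_num]
  gcongr ?_ * _
  by_cases hts : t < s
  · have h2 : ind f lam t = 1 := by
      unfold ind Lr
      rw [if_pos]
      refine hs _ ?_
      rw [← NNReal.coe_lt_coe, Real.coe_toNNReal _ ht0.le]
      exact hts
    rw [h2, mul_one]
    refine measure_mono fun x hx => ?_
    have h3 : t < ((min (f x) s : ℝ≥0) : ℝ) := hx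
    exact lt_of_lt_of_le h3 (by exact_mod_cast min_le_left _ _)
  · have : {x | t < ((min (f x) s : ℝ≥0) : ℝ)} = ∅ := by
      ext x
      simp only [mem_empty_iff_false, iff_false]
      intro h3
      have h4 : t < ((min (f x) s : ℝ≥0) : ℝ) := h3
      exact hts (lt_of_lt_of_le h4 (by exact_mod_cast min_le_right _ _))
    rw [this, measure_empty]
    exact zero_le

lemma Lr_le {f : E 3 → ℝ≥0} (hf : Measurable f) {q : ℝ} (hq : 1 < q) {t : ℝ} (ht : 0 < t) :
    Lr f t ≤ ENNReal.ofReal (t ^ (1 - q)) * ∫⁻ x, (f x : ℝ≥0∞) ^ q ∂(sg 3) := by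
  unfold Lr Lam
  rw [← lintegral_const_mul _ (hf.coe_nnreal_ennreal.pow_const q)]
  refine lintegral_mono fun x => ?_
  by_cases h : t < f x
  · have hfx : 0 < (f x : ℝ) := ht.trans h
    have h1 : (f x : ℝ) ≤ t ^ (1 - q) * (f x : ℝ) ^ q := by
      have e : (f x : ℝ) = (f x : ℝ) ^ (1 - q) * (f x : ℝ) ^ q := by
        rw [← Real.rpow_add hfx]
        simp
      calc (f x : ℝ) = (f x : ℝ) ^ (1 - q) * (f x : ℝ) ^ q := e
        _ ≤ t ^ (1 - q) * (f x : ℝ) ^ q := by
            gcongr ?_ * _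
            exact Real.rpow_le_rpow_of_nonpos ht h.le (by linarith)
    calc ((f x - t.toNNReal : ℝ≥0) : ℝ≥0∞) ≤ (f x : ℝ≥0∞) := ENNReal.coe_le_coe.2 tsub_le_self
      _ = ENNReal.ofReal (f x : ℝ) := by rw [ENNReal.ofReal_coe_nnreal]
      _ ≤ ENNReal.ofReal (t ^ (1 - q) * (f x : ℝ) ^ q) := ENNReal.ofReal_le_ofReal h1
      _ = _ := by
          rw [ENNReal.ofReal_mul (by positivity), ← ENNReal.ofReal_rpow_of_pos hfx,
            ENNReal.ofReal_coe_nnreal]
  · have : f x - t.toNNReal = 0 := by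
      apply tsub_eq_zero_of_le
      rw [← NNReal.coe_le_coe, Real.coe_toNNReal _ ht.le]
      exact not_lt.1 h
    rw [this]
    simp

lemma inner_lam {f : E 3 → ℝ≥0} (hf : Measurable f) {p q A : ℝ} (hp : 3 < p) (hq : 1 < q) (hA : 0 ≤ A)
    (hAe : ∫⁻ x, (f x : ℝ≥0∞) ^ q ∂(sg 3) = ENNReal.ofReal A) {t : ℝ} (ht : 0 < t) :
    ∫⁻ lam in Ioi (0 : ℝ), ENNReal.ofReal (lam ^ (p - 4)) * ind f lam t ≤
      ENNReal.ofReal (4 ^ (p - 3) / (p - 3) * (t ^ (1 - q) * A) ^ (p - 3)) := by
  have hL := Lr_le hf hq ht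
  rw [hAe, ← ENNReal.ofReal_mul (by positivity)] at hL
  set B : ℝ := 4 * (t ^ (1 - q) * A) with hB
  have hB0 : 0 ≤ B := by positivity
  calc ∫⁻ lam in Ioi (0 : ℝ), ENNReal.ofReal (lam ^ (p - 4)) * ind f lam t
      ≤ ∫⁻ lam in Ioi (0 : ℝ), (Ioc 0 B).indicator (fun lam => ENNReal.ofReal (lam ^ (p - 4))) lam := by
        refine setLIntegral_mono' measurableSet_Ioi fun lam hlam => ?_
        have hl : (0 : ℝ) < lam := hlam
        unfold ind
        by_cases h : ENNReal.ofReal (lam / 4) < Lr f t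
        · rw [if_pos h, mul_one, indicator_of_mem]
          refine ⟨hl, ?_⟩
          have h1 := h.trans_le hL
          have h2 : lam / 4 < t ^ (1 - q) * A :=
            (ENNReal.ofReal_lt_ofReal_iff_of_nonneg (by positivity)).1 h1
          rw [hB]; linarith
        · rw [if_neg h, mul_zero]
          exact zero_le
    _ ≤ ∫⁻ lam, (Ioc 0 B).indicator (fun lam => ENNReal.ofReal (lam ^ (p - 4))) lam :=
        setLIntegral_le_lintegral _ _
    _ = ∫⁻ lam in Ioc 0 B, ENNReal.ofReal (lam ^ (p - 4)) := lintegral_indicator measurableSet_Ioc _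
    _ = ENNReal.ofReal (∫ lam in Ioc 0 B, lam ^ (p - 4)) := by
        rw [ofReal_integral_eq_lintegral_ofReal]
        · have := intervalIntegral.intervalIntegrable_rpow' (a := 0) (b := B) (r := p - 4) (by linarith)
          exact (intervalIntegrable_iff_integrableOn_Ioc_of_le hB0).1 this
        · refine (ae_restrict_mem measurableSet_Ioc).mono fun lam hl => ?_
          exact Real.rpow_nonneg hl.1.le _
    _ = ENNReal.ofReal (4 ^ (p - 3) / (p - 3) * (t ^ (1 - q) * A) ^ (p - 3)) := by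
        rw [← intervalIntegral.integral_of_le hB0, integral_rpow (Or.inl (by linarith))]
        congr 1
        rw [show p - 4 + 1 = p - 3 by ring, Real.zero_rpow (by linarith), sub_zero, hB,
          Real.mul_rpow (by norm_num) (by positivity)]
        ring

/-- **The estimate on the scaling line.** -/
theorem strong : ∃ C : ℝ, 0 < C ∧ ∀ (N : ℕ) (f : E 3 → ℝ≥0) (m : E 3 → ℂ), 1 ≤ N → Measurable f →
    Measurable m → (∀ x, ‖m x‖ ≤ 1) → Vr N m → ∫⁻ x, f x ∂(sg 3) ≠ ∞ → Md N f → ∀ p : ℝ, 3 < p →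
      ∫⁻ ξ, ‖T (cm f m) ξ‖ₑ ^ p ≤ ENNReal.ofReal (C ^ p * N / (p - 3)) *
        (∫⁻ x, (f x : ℝ≥0∞) ^ (p / (p - 2)) ∂(sg 3)) ^ (p - 2) := by
  obtain ⟨C, hC, WK⟩ := weak
  refine ⟨64 * (C + 1), by positivity, fun N f μ hN hf hμ hμ1 hμV hfin hM p hp => ?_⟩
  have hfinm := sg_finite 3
  have hN0 : (0 : ℝ) < N := by exact_mod_cast hN
  have hp2 : 0 < p - 2 := by linarith
  have hp3 : 0 < p - 3 := by linarith
  set q : ℝ := p / (p - 2) with hq
  have hq1 : 1 < q := by rw [hq, one_lt_div hp2]; linarith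
  by_cases hAt : ∫⁻ x, (f x : ℝ≥0∞) ^ q ∂(sg 3) = ∞
  · rw [hAt, ENNReal.top_rpow_of_pos hp2, ENNReal.mul_top]
    · exact le_top
    · rw [ne_eq, ENNReal.ofReal_eq_zero, not_le]
      positivity
  set A : ℝ := (∫⁻ x, (f x : ℝ≥0∞) ^ q ∂(sg 3)).toReal with hA
  have hA0 : 0 ≤ A := ENNReal.toReal_nonneg
  have hAe : ∫⁻ x, (f x : ℝ≥0∞) ^ q ∂(sg 3) = ENNReal.ofReal A := (ENNReal.ofReal_toReal hAt).symm
  have hTm : Measurable (T (cm f μ)) := T_meas (cm_meas hf hμ)
  -- layer cake on the left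
  have h1 := lintegral_rpow_eq_lintegral_meas_lt_mul (volume : Measure (E 3))
    (f := fun ξ => ‖T (cm f μ) ξ‖) (Filter.Eventually.of_forall fun x => norm_nonneg _)
    hTm.norm.aemeasurable (p := p) (by linarith)
  have e1 : ∫⁻ ξ, ‖T (cm f μ) ξ‖ₑ ^ p = ∫⁻ ξ, ENNReal.ofReal (‖T (cm f μ) ξ‖ ^ p) := by
    refine lintegral_congr fun ξ => ?_
    rw [← ENNReal.ofReal_rpow_of_nonneg (norm_nonneg _) (by linarith), ofReal_norm]
  rw [e1, h1]
  have hHm : Measurable fun z : ℝ × ℝ => ENNReal.ofReal (z.1 ^ (p - 4)) *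
      (dst f z.2 * ind f z.1 z.2 * ENNReal.ofReal (z.2 ^ (2 : ℝ))) := by
    refine Measurable.mul ?_ ((((dst_meas f).comp measurable_snd).mul (ind_meas f)).mul ?_)
    · exact (measurable_fst.pow_const _).ennreal_ofReal
    · exact (measurable_snd.pow_const _).ennreal_ofReal
  -- the layer cake for `A`
  have hAq : ENNReal.ofReal q * ∫⁻ t in Ioi (0 : ℝ), dst f t * ENNReal.ofReal (t ^ (q - 1)) =
      ENNReal.ofReal A := by
    have h2 := lintegral_rpow_eq_lintegral_meas_lt_mul (sg 3)
      (f := fun x => ((f x : ℝ≥0) : ℝ)) (Filter.Eventually.of_forall fun x => NNReal.coe_nonneg _)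
      (measurable_coe_nnreal_real.comp hf).aemeasurable (p := q) (by linarith)
    rw [← hAe]
    refine h2.symm.trans (lintegral_congr fun x => ?_)
    rw [← ENNReal.ofReal_rpow_of_nonneg (NNReal.coe_nonneg _) (by linarith), ENNReal.ofReal_coe_nnreal]
  have hAq' : ∫⁻ t in Ioi (0 : ℝ), dst f t * ENNReal.ofReal (t ^ (q - 1)) ≤ ENNReal.ofReal A := by
    rw [← hAq]
    refine le_mul_of_one_le_left zero_le ?_
    rw [← ENNReal.ofReal_one]
    exact ENNReal.ofReal_le_ofReal hq1.le
  calc ENNReal.ofReal p * ∫⁻ lam in Ioi (0 : ℝ), volume {ξ : E 3 | lam < ‖T (cm f μ) ξ‖} *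
        ENNReal.ofReal (lam ^ (p - 1))
      ≤ ENNReal.ofReal p * ∫⁻ lam in Ioi (0 : ℝ), ENNReal.ofReal (3 * C * N) *
        ∫⁻ t in Ioi (0 : ℝ), ENNReal.ofReal (lam ^ (p - 4)) *
          (dst f t * ind f lam t * ENNReal.ofReal (t ^ (2 : ℝ))) := by
        gcongr ENNReal.ofReal p * ?_
        refine setLIntegral_mono' measurableSet_Ioi fun lam hlam => ?_
        have hl : (0 : ℝ) < lam := hlam
        obtain ⟨s, hs1, hs2⟩ := WK N f μ hN hf hμ hμ1 hμV hfin hM lam hl
        have h3 := cube f hf lam s hs1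
        have hmt : Measurable fun t : ℝ => dst f t * ind f lam t * ENNReal.ofReal (t ^ (2 : ℝ)) := by
          refine ((dst_meas f).mul ((ind_meas f).comp (measurable_const.prodMk measurable_id))).mul ?_
          exact (measurable_id.pow_const _).ennreal_ofReal
        calc volume {ξ : E 3 | lam < ‖T (cm f μ) ξ‖} * ENNReal.ofReal (lam ^ (p - 1))
            ≤ (ENNReal.ofReal (C * N / lam ^ 3) * (ENNReal.ofReal 3 *
              ∫⁻ t in Ioi (0 : ℝ), dst f t * ind f lam t * ENNReal.ofReal (t ^ (2 : ℝ)))) *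
              ENNReal.ofReal (lam ^ (p - 1)) := by
              gcongr ?_ * _
              exact hs2.trans (mul_le_mul' le_rfl h3)
          _ = (ENNReal.ofReal (C * N / lam ^ 3) * ENNReal.ofReal 3 * ENNReal.ofReal (lam ^ (p - 1))) *
              ∫⁻ t in Ioi (0 : ℝ), dst f t * ind f lam t * ENNReal.ofReal (t ^ (2 : ℝ)) := by ring
          _ = _ := by
              rw [lintegral_const_mul _ hmt, ← mul_assoc]
              congr 1
              rw [← ENNReal.ofReal_mul (by positivity), ← ENNReal.ofReal_mul (by positivity),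
                ← ENNReal.ofReal_mul (by positivity)]
              congr 1
              have h5 : lam ^ (p - 1) = lam ^ (p - 4) * lam ^ 3 := by
                rw [← Real.rpow_natCast lam 3, ← Real.rpow_add hl]
                congr 1
                push_cast
                ring
              rw [h5]
              field_simp
    _ = ENNReal.ofReal p * (ENNReal.ofReal (3 * C * N) * ∫⁻ t in Ioi (0 : ℝ),
        ∫⁻ lam in Ioi (0 : ℝ), ENNReal.ofReal (lam ^ (p - 4)) *
          (dst f t * ind f lam t * ENNReal.ofReal (t ^ (2 : ℝ)))) := by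
        rw [lintegral_const_mul _ hHm.lintegral_prod_right, lintegral_lintegral_swap hHm.aemeasurable]
    _ ≤ ENNReal.ofReal p * (ENNReal.ofReal (3 * C * N) * ∫⁻ t in Ioi (0 : ℝ),
        ENNReal.ofReal (4 ^ (p - 3) / (p - 3) * A ^ (p - 3)) *
          (dst f t * ENNReal.ofReal (t ^ (q - 1)))) := by
        gcongr ENNReal.ofReal p * (ENNReal.ofReal (3 * C * N) * ?_)
        refine setLIntegral_mono' measurableSet_Ioi fun t ht => ?_
        have ht0 : (0 : ℝ) < t := ht
        have hml : Measurable fun lam : ℝ => ENNReal.ofReal (lam ^ (p - 4)) * ind f lam t :=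
          (measurable_id.pow_const _).ennreal_ofReal.mul
            ((ind_meas f).comp (measurable_id.prodMk measurable_const))
        calc ∫⁻ lam in Ioi (0 : ℝ), ENNReal.ofReal (lam ^ (p - 4)) *
              (dst f t * ind f lam t * ENNReal.ofReal (t ^ (2 : ℝ)))
            = ∫⁻ lam in Ioi (0 : ℝ), (dst f t * ENNReal.ofReal (t ^ (2 : ℝ))) *
              (ENNReal.ofReal (lam ^ (p - 4)) * ind f lam t) := by
              refine lintegral_congr fun lam => ?_
              ring
          _ = (dst f t * ENNReal.ofReal (t ^ (2 : ℝ))) *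
              ∫⁻ lam in Ioi (0 : ℝ), ENNReal.ofReal (lam ^ (p - 4)) * ind f lam t :=
              lintegral_const_mul _ hml
          _ ≤ (dst f t * ENNReal.ofReal (t ^ (2 : ℝ))) *
              ENNReal.ofReal (4 ^ (p - 3) / (p - 3) * (t ^ (1 - q) * A) ^ (p - 3)) := by
              gcongr _ * ?_
              exact inner_lam hf hp hq1 hA0 hAe ht0
          _ = dst f t * (ENNReal.ofReal (t ^ (2 : ℝ)) *
              ENNReal.ofReal (4 ^ (p - 3) / (p - 3) * (t ^ (1 - q) * A) ^ (p - 3))) := by ring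
          _ = dst f t * (ENNReal.ofReal (4 ^ (p - 3) / (p - 3) * A ^ (p - 3)) *
              ENNReal.ofReal (t ^ (q - 1))) := by
              congr 1
              rw [← ENNReal.ofReal_mul (by positivity), ← ENNReal.ofReal_mul (by positivity)]
              congr 1
              rw [Real.mul_rpow (by positivity) hA0, ← Real.rpow_mul ht0.le]
              have h6 : t ^ (q - 1) = t ^ (2 : ℝ) * t ^ ((1 - q) * (p - 3)) := by
                rw [← Real.rpow_add ht0]
                congr 1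
                have : q * (p - 2) = p := by rw [hq]; field_simp
                linarith
              rw [h6]
              ring
          _ = _ := by ring
    _ = ENNReal.ofReal p * (ENNReal.ofReal (3 * C * N) *
        (ENNReal.ofReal (4 ^ (p - 3) / (p - 3) * A ^ (p - 3)) *
          ∫⁻ t in Ioi (0 : ℝ), dst f t * ENNReal.ofReal (t ^ (q - 1)))) := by
        rw [lintegral_const_mul]
        exact (dst_meas f).mul (measurable_id.pow_const _).ennreal_ofReal
    _ ≤ ENNReal.ofReal p * (ENNReal.ofReal (3 * C * N) *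
        (ENNReal.ofReal (4 ^ (p - 3) / (p - 3) * A ^ (p - 3)) * ENNReal.ofReal A)) := by
        gcongr
    _ ≤ _ := by
        have hpow : ENNReal.ofReal A ^ (p - 2) = ENNReal.ofReal (A ^ (p - 2)) :=
          ENNReal.ofReal_rpow_of_nonneg hA0 hp2.le
        rw [hAe, hpow, ← ENNReal.ofReal_mul (by positivity), ← ENNReal.ofReal_mul (by positivity),
          ← ENNReal.ofReal_mul (by positivity), ← ENNReal.ofReal_mul (by positivity)]
        apply ENNReal.ofReal_le_ofReal
        have h7 : A ^ (p - 2) = A ^ (p - 3) * A := by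
          rcases hA0.eq_or_lt with h0 | h0
          · rw [← h0, Real.zero_rpow hp2.ne', mul_zero]
          · have : p - 2 = (p - 3) + 1 := by ring
            rw [this, Real.rpow_add h0, Real.rpow_one]
        rw [h7]
        have h8 : 3 * p * (4 : ℝ) ^ (p - 3) * C ≤ (64 * (C + 1)) ^ p := by
          have a1 : p ≤ (2 : ℝ) ^ p := by
            have := one_add_mul_self_le_rpow_one_add (s := 1) (by norm_num) (p := p) (by linarith)
            norm_num at this
            linarith
          have a2 : (4 : ℝ) ^ (p - 3) ≤ 4 ^ p := Real.rpow_le_rpow_of_exponent_le (by norm_num) (by linarith)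
          have a3 : (3 : ℝ) ≤ 8 ^ p := by
            calc (3 : ℝ) ≤ 8 ^ (1 : ℝ) := by norm_num
              _ ≤ 8 ^ p := Real.rpow_le_rpow_of_exponent_le (by norm_num) (by linarith)
          have a4 : C ≤ (C + 1) ^ p := by
            calc C ≤ (C + 1) ^ (1 : ℝ) := by rw [Real.rpow_one]; linarith
              _ ≤ (C + 1) ^ p := Real.rpow_le_rpow_of_exponent_le (by linarith) (by linarith)
          calc 3 * p * (4 : ℝ) ^ (p - 3) * C ≤ 8 ^ p * 2 ^ p * 4 ^ p * (C + 1) ^ p := by gcongr
            _ = _ := by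
                rw [← Real.mul_rpow (by norm_num) (by norm_num), ← Real.mul_rpow (by norm_num) (by norm_num),
                  ← Real.mul_rpow (by norm_num) (by positivity)]
                norm_num
        have hden : 0 ≤ A ^ (p - 3) * A := by positivity
        calc p * (3 * C * N * (4 ^ (p - 3) / (p - 3) * A ^ (p - 3) * A))
            = (3 * p * (4 : ℝ) ^ (p - 3) * C) * N / (p - 3) * (A ^ (p - 3) * A) := by ring
          _ ≤ _ := by gcongr

end Pool.Agent.V1172.GC
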