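import Mathlib
import Pool.Agent.V1172.GC.Strong

set_option autoImplicit false

/-! Superpositions. -/

namespace Pool.Agent.V1172.GC

open MeasureTheory Set Metric Complex
open Pool.Agent.H789R2.FR
open scoped ENNReal NNReal RealInnerProductSpace

/-- integrals of a function of weak type 3 over sets -/
lemma K1 {u : E 3 → ℝ} (hu : Measurable u) (hu0 : ∀ x, 0 ≤ u x) {b C : ℝ} (hb : 0 ≤ b)
    (hC : 0 ≤ C) (H : ∀ lam : ℝ, 0 < lam → volume {x | lam < u x} ≤ ENNReal.ofReal (C * b ^ 3 / lam ^ 3))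
    (A : Set (E 3)) {κ : ℝ} (hκ : 0 < κ) :
    ∫⁻ x in A, ENNReal.ofReal (u x) ≤
      ENNReal.ofReal (κ * b) * volume A + ENNReal.ofReal (3 * C * b / (2 * κ ^ 2)) := by
  rcases hb.eq_or_lt with hb0 | hb0
  · have h1 : ∫⁻ x, ENNReal.ofReal (u x) = 0 := by
      rw [lintegral_eq_lintegral_meas_lt volume (Filter.Eventually.of_forall hu0) hu.aemeasurable]
      rw [← nonpos_iff_eq_zero]
      refine (setLIntegral_mono' (g := fun _ => 0) measurableSet_Ioi fun t ht => ?_).trans (by simp)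
      refine (H t ht).trans ?_
      rw [← hb0]
      simp
    refine (setLIntegral_le_lintegral _ _).trans ?_
    rw [h1]
    exact zero_le
  set τ : ℝ := κ * b with hτ
  have hτ0 : 0 < τ := by positivity
  set v : E 3 → ℝ := fun x => max (u x - τ) 0 with hv
  have hvm : Measurable v := (hu.sub_const τ).max measurable_const
  have hvset : ∀ t : ℝ, 0 < t → {x | t < v x} ⊆ {x | t + τ < u x} := fun t ht x hx => by
    have h1 : t < max (u x - τ) 0 := hx
    rcases lt_max_iff.1 h1 with h | h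
    · show t + τ < u x
      linarith
    · exact absurd h (not_lt.2 ht.le)
  have hv1 : ∫⁻ x, ENNReal.ofReal (v x) ≤ ENNReal.ofReal (3 * C * b / (2 * κ ^ 2)) := by
    have hv0 : 0 ≤ᵐ[volume] v := Filter.Eventually.of_forall fun x => le_max_right _ _
    rw [lintegral_eq_lintegral_meas_lt volume hv0 hvm.aemeasurable, ← Ioc_union_Ioi_eq_Ioi hτ0.le, lintegral_union measurableSet_Ioi
        Ioc_disjoint_Ioi_same]
    have e3 : C * b ^ 3 / τ ^ 2 + C * b ^ 3 / (2 * τ ^ 2) = 3 * C * b / (2 * κ ^ 2) := by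
      rw [hτ]; field_simp; ring
    rw [← e3, ENNReal.ofReal_add (by positivity) (by positivity)]
    refine add_le_add ?_ ?_
    · calc ∫⁻ t in Ioc 0 τ, volume {x | t < v x} ≤ ∫⁻ _t in Ioc 0 τ, ENNReal.ofReal (C * b ^ 3 / τ ^ 3) := by
            refine setLIntegral_mono' measurableSet_Ioc fun t ht => ?_
            refine (measure_mono (hvset t ht.1)).trans ((H _ (by linarith [ht.1])).trans ?_)
            apply ENNReal.ofReal_le_ofReal
            have := ht.1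
            gcongr
            linarith
        _ = _ := by
            rw [setLIntegral_const, Real.volume_Ioc, ← ENNReal.ofReal_mul (by positivity)]
            congr 1
            rw [sub_zero]
            field_simp
    · calc ∫⁻ t in Ioi τ, volume {x | t < v x} ≤ ∫⁻ t in Ioi τ, ENNReal.ofReal (C * b ^ 3 * t ^ (-3 : ℝ)) := by
            refine setLIntegral_mono' measurableSet_Ioi fun t ht => ?_
            have ht0 : (0 : ℝ) < t := hτ0.trans ht
            refine (measure_mono (hvset t ht0)).trans ((H _ (by linarith)).trans ?_)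
            apply ENNReal.ofReal_le_ofReal
            rw [Real.rpow_neg ht0.le, show (3 : ℝ) = ((3 : ℕ) : ℝ) by norm_num, Real.rpow_natCast,
              ← div_eq_mul_inv]
            gcongr
            linarith
        _ = ENNReal.ofReal (∫ t in Ioi τ, C * b ^ 3 * t ^ (-3 : ℝ)) := by
            rw [ofReal_integral_eq_lintegral_ofReal]
            · exact (integrableOn_Ioi_rpow_of_lt (by norm_num) hτ0).const_mul _
            · refine (ae_restrict_mem measurableSet_Ioi).mono fun t ht => ?_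
              have ht0 : (0 : ℝ) < t := hτ0.trans ht
              simp only [Pi.zero_apply]
              positivity
        _ ≤ _ := by
            apply ENNReal.ofReal_le_ofReal
            rw [integral_const_mul, integral_Ioi_rpow_of_lt (by norm_num) hτ0]
            apply le_of_eq
            rw [show (-3 : ℝ) + 1 = -((2 : ℕ) : ℝ) by norm_num, Real.rpow_neg hτ0.le, Real.rpow_natCast]
            push_cast
            field_simp
  calc ∫⁻ x in A, ENNReal.ofReal (u x) ≤ ∫⁻ x in A, (ENNReal.ofReal τ + ENNReal.ofReal (v x)) := by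
        refine lintegral_mono fun x => ?_
        rw [← ENNReal.ofReal_add hτ0.le (le_max_right _ _)]
        apply ENNReal.ofReal_le_ofReal
        have : u x - τ ≤ v x := le_max_left _ _
        linarith
    _ = ENNReal.ofReal τ * volume A + ∫⁻ x in A, ENNReal.ofReal (v x) := by
        rw [lintegral_add_left measurable_const, setLIntegral_const]
    _ ≤ _ := by
        gcongr
        exact (setLIntegral_le_lintegral _ _).trans hv1

/-- modulated densities -/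
noncomputable def mdl (η : E 3) (f : E 3 → ℝ≥0) (m : E 3 → ℂ) (x : E 3) : ℂ :=
  cexp (((⟪η, x⟫ : ℝ) : ℂ) * I) * cm f m x

lemma mdl_meas (η : E 3) {f : E 3 → ℝ≥0} (hf : Measurable f) {m : E 3 → ℂ} (hm : Measurable m) :
    Measurable (mdl η f m) := by
  have h1 : Continuous fun x : E 3 => cexp (((⟪η, x⟫ : ℝ) : ℂ) * I) := by fun_prop
  exact h1.measurable.mul (cm_meas hf hm)

lemma mdl_enorm (η : E 3) (f : E 3 → ℝ≥0) {m : E 3 → ℂ} (hm1 : ∀ x, ‖m x‖ ≤ 1) (x : E 3) :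
    ‖mdl η f m x‖ₑ ≤ f x := by
  rw [mdl, enorm_mul, ← ofReal_norm, Complex.norm_exp_ofReal_mul_I, ENNReal.ofReal_one, one_mul]
  exact cm_enorm f hm1 x

lemma T_mdl (η : E 3) (f : E 3 → ℝ≥0) (m : E 3 → ℂ) (ξ : E 3) :
    T (mdl η f m) ξ = T (cm f m) (ξ - η) := by
  unfold T
  congr 1
  ext w
  simp only [mdl]
  rw [← mul_assoc, ← Complex.exp_add]
  congr 2
  rw [inner_sub_left]
  push_cast
  ring

/-- the data of one summand -/
structure Atm (N : ℕ) (f : E 3 → ℝ≥0) (m : E 3 → ℂ) : Prop where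
  one : 1 ≤ N
  mf : Measurable f
  mm : Measurable m
  m1 : ∀ x, ‖m x‖ ≤ 1
  vr : Vr N m
  md : Md N f

lemma T_tsum {g : E 3 → ℂ} {F : ℕ → E 3 → ℂ} (hF : ∀ j, Measurable (F j))
    (hs : ∑' j, ∫⁻ x, ‖F j x‖ₑ ∂(sg 3) ≠ ∞) (hg : ∀ᵐ x ∂(sg 3), g x = ∑' j, F j x) (ξ : E 3) :
    HasSum (fun j => T (F j) ξ) (T g ξ) := by
  have hk : Measurable fun w : E 3 => cexp (-((⟪ξ, w⟫ : ℝ) : ℂ) * I) := (kern_cont ξ).measurable
  have h1 : ∑' j, ∫⁻ w, ‖cexp (-((⟪ξ, w⟫ : ℝ) : ℂ) * I) * F j w‖ₑ ∂(sg 3) ≠ ∞ := by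
    convert hs using 4
    ext x
    rw [enorm_mul, ← ofReal_norm, kern_norm, ENNReal.ofReal_one, one_mul]
  have h2 := hasSum_integral_of_summable_integral_norm
    (F := fun j (w : E 3) => cexp (-((⟪ξ, w⟫ : ℝ) : ℂ) * I) * F j w) (μ := sg 3)
    (fun j => ⟨(hk.mul (hF j)).aestronglyMeasurable, by
      exact (ENNReal.ne_top_of_tsum_ne_top h1 j).lt_top⟩) (by
      have h3 : ∀ j, ∫ w : E 3, ‖cexp (-((⟪ξ, w⟫ : ℝ) : ℂ) * I) * F j w‖ ∂(sg 3) =
          (∫⁻ w : E 3, ‖cexp (-((⟪ξ, w⟫ : ℝ) : ℂ) * I) * F j w‖ₑ ∂(sg 3)).toReal := fun j =>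
        integral_norm_eq_lintegral_enorm (hk.mul (hF j)).aestronglyMeasurable
      simp only [h3]
      exact ENNReal.summable_toReal h1)
  have h4 : T g ξ = ∫ w : E 3, ∑' j, cexp (-((⟪ξ, w⟫ : ℝ) : ℂ) * I) * F j w ∂(sg 3) := by
    unfold T
    apply integral_congr_ae
    filter_upwards [hg] with x hx
    rw [tsum_mul_left, hx]
  rw [h4]
  exact h2

/-- Hölder's inequality on the sphere. -/
lemma l1_le {f : E 3 → ℝ≥0} (hf : Measurable f) {q : ℝ} (hq : 1 ≤ q) :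
    ∫⁻ x, f x ∂(sg 3) ≤ (∫⁻ x, (f x : ℝ≥0∞) ^ q ∂(sg 3)) ^ (1 / q) *
      (sg 3) univ ^ (1 - 1 / q) := by
  have h1 := eLpNorm_le_eLpNorm_mul_rpow_measure_univ (μ := sg 3) (p := 1) (q := ENNReal.ofReal q)
    (f := fun x => ((f x : ℝ≥0) : ℝ)) (by rw [← ENNReal.ofReal_one]; exact ENNReal.ofReal_le_ofReal hq)
    (measurable_coe_nnreal_real.comp hf).aestronglyMeasurable
  have hen : ∀ x, ‖((f x : ℝ≥0) : ℝ)‖ₑ = f x := fun x => by
    rw [← ofReal_norm, Real.norm_of_nonneg (NNReal.coe_nonneg _), ENNReal.ofReal_coe_nnreal]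
  rw [eLpNorm_one_eq_lintegral_enorm, eLpNorm_eq_lintegral_rpow_enorm_toReal
    (by rw [ne_eq, ENNReal.ofReal_eq_zero]; linarith) ENNReal.ofReal_ne_top,
    ENNReal.toReal_ofReal (by linarith)] at h1
  simp only [hen] at h1
  simpa using h1

lemma sum_l1 {q p : ℝ} (hq : 1 ≤ q) (hp : 0 < p) {N : ℕ → ℕ} {f : ℕ → E 3 → ℝ≥0} {m : ℕ → E 3 → ℂ}
    (hA : ∀ j, Atm (N j) (f j) (m j))
    (hS : ∑' j, (N j : ℝ≥0∞) ^ (1 / p) * (∫⁻ x, (f j x : ℝ≥0∞) ^ q ∂(sg 3)) ^ (1 / q) ≠ ∞) :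
    ∑' j, ∫⁻ x, f j x ∂(sg 3) ≠ ∞ := by
  have hfin := sg_finite 3
  have h1 : ∑' j, ∫⁻ x, f j x ∂(sg 3) ≤
      (∑' j, (N j : ℝ≥0∞) ^ (1 / p) * (∫⁻ x, (f j x : ℝ≥0∞) ^ q ∂(sg 3)) ^ (1 / q)) *
        (sg 3) univ ^ (1 - 1 / q) := by
    rw [← ENNReal.tsum_mul_right]
    refine ENNReal.tsum_le_tsum fun j => (l1_le (hA j).mf hq).trans ?_
    gcongr
    refine le_mul_of_one_le_left zero_le (ENNReal.one_le_rpow ?_ (by positivity))
    exact_mod_cast (hA j).one
  refine ne_top_of_le_ne_top (ENNReal.mul_ne_top hS ?_) h1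
  refine ENNReal.rpow_ne_top_of_nonneg ?_ (measure_ne_top _ _)
  rw [sub_nonneg, div_le_one (by linarith)]
  exact hq

/-- **Superpositions, the endpoint.** -/
theorem sum_weak : ∃ C : ℝ, 0 < C ∧ ∀ (η : ℕ → E 3) (N : ℕ → ℕ) (f : ℕ → E 3 → ℝ≥0)
    (m : ℕ → E 3 → ℂ), (∀ j, Atm (N j) (f j) (m j)) → ∀ g : E 3 → ℂ,
    (∀ᵐ x ∂(sg 3), g x = ∑' j, mdl (η j) (f j) (m j) x) → ∀ S : ℝ, 0 < S →
    ∑' j, (N j : ℝ≥0∞) ^ (1 / 3 : ℝ) * (∫⁻ x, (f j x : ℝ≥0∞) ^ (3 : ℝ) ∂(sg 3)) ^ (1 / 3 : ℝ) ≤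
      ENNReal.ofReal S →
    ∀ lam : ℝ, 0 < lam → volume {ξ | lam < ‖T g ξ‖} ≤ ENNReal.ofReal (C * (S / lam) ^ 3) := by
  obtain ⟨C, hC, WK⟩ := weak
  refine ⟨12 * C, by positivity, fun η N f m hA g hg S hS hSum lam hlam => ?_⟩
  have hfin := sg_finite 3
  have hne : ∑' j, (N j : ℝ≥0∞) ^ (1 / 3 : ℝ) *
      (∫⁻ x, (f j x : ℝ≥0∞) ^ (3 : ℝ) ∂(sg 3)) ^ (1 / 3 : ℝ) ≠ ∞ :=
    ne_top_of_le_ne_top ENNReal.ofReal_ne_top hSum
  have hl1 := sum_l1 (q := 3) (p := 3) (by norm_num) (by norm_num) hA hne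
  have hF1 : ∑' j, ∫⁻ x, ‖mdl (η j) (f j) (m j) x‖ₑ ∂(sg 3) ≠ ∞ :=
    ne_top_of_le_ne_top hl1 (ENNReal.tsum_le_tsum fun j => lintegral_mono fun x =>
      mdl_enorm _ _ (hA j).m1 x)
  have hsum := fun ξ => T_tsum (fun j => mdl_meas (η j) (hA j).mf (hA j).mm) hF1 hg ξ
  -- the sizes
  set b : ℕ → ℝ := fun j => ((N j : ℝ≥0∞) ^ (1 / 3 : ℝ) *
    (∫⁻ x, (f j x : ℝ≥0∞) ^ (3 : ℝ) ∂(sg 3)) ^ (1 / 3 : ℝ)).toReal with hb
  have hb0 : ∀ j, 0 ≤ b j := fun j => ENNReal.toReal_nonneg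
  have hbj : ∀ j, (N j : ℝ≥0∞) ^ (1 / 3 : ℝ) *
      (∫⁻ x, (f j x : ℝ≥0∞) ^ (3 : ℝ) ∂(sg 3)) ^ (1 / 3 : ℝ) ≠ ∞ := fun j =>
    ENNReal.ne_top_of_tsum_ne_top hne j
  have hbe : ∀ j, ENNReal.ofReal (b j) = (N j : ℝ≥0∞) ^ (1 / 3 : ℝ) *
      (∫⁻ x, (f j x : ℝ≥0∞) ^ (3 : ℝ) ∂(sg 3)) ^ (1 / 3 : ℝ) := fun j => ENNReal.ofReal_toReal (hbj j)
  have hb3 : ∀ j, ENNReal.ofReal (b j ^ 3) = (N j : ℝ≥0∞) * ∫⁻ x, (f j x : ℝ≥0∞) ^ (3 : ℝ) ∂(sg 3) := by
    intro j
    rw [ENNReal.ofReal_pow (hb0 j), hbe, mul_pow, ← ENNReal.rpow_natCast, ← ENNReal.rpow_natCast,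
      ← ENNReal.rpow_mul, ← ENNReal.rpow_mul]
    norm_num
  have hbS : ∑' j, ENNReal.ofReal (b j) ≤ ENNReal.ofReal S := by
    simp only [hbe]
    exact hSum
  set u : ℕ → E 3 → ℝ := fun j ξ => ‖T (mdl (η j) (f j) (m j)) ξ‖ with hu
  have hum : ∀ j, Measurable (u j) := fun j => (T_meas (mdl_meas (η j) (hA j).mf (hA j).mm)).norm
  have hH : ∀ j, ∀ l : ℝ, 0 < l → volume {ξ | l < u j ξ} ≤ ENNReal.ofReal (C * b j ^ 3 / l ^ 3) := by
    intro j l hl
    have hfj : ∫⁻ x, f j x ∂(sg 3) ≠ ∞ := ENNReal.ne_top_of_tsum_ne_top hl1 j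
    obtain ⟨s, -, h1⟩ := WK (N j) (f j) (m j) (hA j).one (hA j).mf (hA j).mm (hA j).m1 (hA j).vr hfj
      (hA j).md l hl
    have e1 : {ξ | l < u j ξ} = (fun ξ => ξ - η j) ⁻¹' {ξ | l < ‖T (cm (f j) (m j)) ξ‖} := by
      ext ξ
      simp only [hu, mem_ofPred_eq, mem_preimage, T_mdl]
    rw [e1, (measurePreserving_sub_right volume (η j)).measure_preimage]
    · refine h1.trans ?_
      calc ENNReal.ofReal (C * N j / l ^ 3) * ∫⁻ x, ((min (f j x) s : ℝ≥0) : ℝ≥0∞) ^ 3 ∂(sg 3)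
          ≤ ENNReal.ofReal (C * N j / l ^ 3) * ∫⁻ x, (f j x : ℝ≥0∞) ^ (3 : ℝ) ∂(sg 3) := by
            refine mul_le_mul' le_rfl (lintegral_mono fun x => ?_)
            rw [show (3 : ℝ) = ((3 : ℕ) : ℝ) by norm_num, ENNReal.rpow_natCast]
            gcongr
            exact min_le_left _ _
        _ = ENNReal.ofReal (C / l ^ 3) * ((N j : ℝ≥0∞) * ∫⁻ x, (f j x : ℝ≥0∞) ^ (3 : ℝ) ∂(sg 3)) := by
            rw [← mul_assoc]
            congr 1
            rw [← ENNReal.ofReal_natCast, ← ENNReal.ofReal_mul (by positivity)]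
            congr 1
            ring
        _ = _ := by
            rw [← hb3, ← ENNReal.ofReal_mul (by positivity)]
            congr 1
            ring
    · exact (measurableSet_lt measurable_const
        (T_meas (cm_meas (hA j).mf (hA j).mm)).norm).nullMeasurableSet
  -- the pointwise bound
  have hpt : ∀ ξ, ENNReal.ofReal ‖T g ξ‖ ≤ ∑' j, ENNReal.ofReal (u j ξ) := by
    intro ξ
    have h1 : ∑' j, ENNReal.ofReal (u j ξ) ≠ ∞ := by
      refine ne_top_of_le_ne_top hl1 (ENNReal.tsum_le_tsum fun j => ?_)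
      simp only [hu]
      rw [T_mdl, ofReal_norm]
      exact T_enorm _ (hA j).m1 _
    have h2 : Summable fun j => ‖T (mdl (η j) (f j) (m j)) ξ‖ := by
      have := ENNReal.summable_toReal h1
      refine this.congr fun j => ?_
      rw [ENNReal.toReal_ofReal (norm_nonneg _)]
    rw [← (hsum ξ).tsum_eq]
    refine (ENNReal.ofReal_le_ofReal (norm_tsum_le_tsum_norm h2)).trans ?_
    rw [ENNReal.ofReal_tsum_of_nonneg (fun j => norm_nonneg _) h2]
  have hTgm : Measurable (T g) := by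
    have : T g = fun ξ => ∑' j, T (mdl (η j) (f j) (m j)) ξ := by
      ext ξ
      exact (hsum ξ).tsum_eq.symm
    rw [this]
    have h3 : ∀ ξ, Filter.Tendsto (fun n => ∑ j ∈ Finset.range n, T (mdl (η j) (f j) (m j)) ξ)
        Filter.atTop (nhds (∑' j, T (mdl (η j) (f j) (m j)) ξ)) := fun ξ =>
      (hsum ξ).summable.hasSum.tendsto_sum_nat
    refine measurable_of_tendsto_metrizable (fun n => ?_) (tendsto_pi_nhds.2 h3)
    exact Finset.measurable_sum _ fun j _ => T_meas (mdl_meas (η j) (hA j).mf (hA j).mm)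
  -- on balls
  set A : ℕ → Set (E 3) := fun n => {ξ | lam < ‖T g ξ‖} ∩ ball 0 n with hAn
  have hAm : ∀ n, MeasurableSet (A n) := fun n =>
    (measurableSet_lt measurable_const hTgm.norm).inter measurableSet_ball
  have hAf : ∀ n, volume (A n) ≠ ∞ := fun n =>
    ne_top_of_le_ne_top measure_ball_lt_top.ne (measure_mono inter_subset_right)
  have hball : ∀ n, volume (A n) ≤ ENNReal.ofReal (12 * C * (S / lam) ^ 3) := by
    intro n
    set κ : ℝ := lam / (2 * S) with hκ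
    have hκ0 : 0 < κ := by positivity
    have h1 : ENNReal.ofReal lam * volume (A n) ≤ ENNReal.ofReal (lam / 2) * volume (A n) +
        ENNReal.ofReal (3 * C * S / (2 * κ ^ 2)) := by
      calc ENNReal.ofReal lam * volume (A n) = ∫⁻ _ξ in A n, ENNReal.ofReal lam := by
            rw [setLIntegral_const]
        _ ≤ ∫⁻ ξ in A n, ∑' j, ENNReal.ofReal (u j ξ) := by
            refine setLIntegral_mono' (hAm n) fun ξ hξ => ?_
            exact (ENNReal.ofReal_le_ofReal (le_of_lt hξ.1)).trans (hpt ξ)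
        _ = ∑' j, ∫⁻ ξ in A n, ENNReal.ofReal (u j ξ) := by
            rw [lintegral_tsum]
            exact fun j => (hum j).ennreal_ofReal.aemeasurable
        _ ≤ ∑' j, (ENNReal.ofReal (κ * b j) * volume (A n) +
            ENNReal.ofReal (3 * C * b j / (2 * κ ^ 2))) :=
            ENNReal.tsum_le_tsum fun j => K1 (hum j) (fun ξ => norm_nonneg _) (hb0 j) hC.le (hH j)
              (A n) hκ0
        _ = ENNReal.ofReal κ * (∑' j, ENNReal.ofReal (b j)) * volume (A n) +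
            ENNReal.ofReal (3 * C / (2 * κ ^ 2)) * ∑' j, ENNReal.ofReal (b j) := by
            rw [ENNReal.tsum_add, ENNReal.tsum_mul_right, ← ENNReal.tsum_mul_left,
              ← ENNReal.tsum_mul_left]
            congr 2
            · congr 1
              ext j
              rw [ENNReal.ofReal_mul hκ0.le]
            · ext j
              rw [← ENNReal.ofReal_mul (by positivity)]
              congr 1
              ring
        _ ≤ ENNReal.ofReal κ * ENNReal.ofReal S * volume (A n) +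
            ENNReal.ofReal (3 * C / (2 * κ ^ 2)) * ENNReal.ofReal S := by gcongr
        _ = _ := by
            have a1 : ENNReal.ofReal κ * ENNReal.ofReal S = ENNReal.ofReal (lam / 2) := by
              rw [← ENNReal.ofReal_mul hκ0.le]
              congr 1
              rw [hκ]; field_simp
            have a2 : ENNReal.ofReal (3 * C / (2 * κ ^ 2)) * ENNReal.ofReal S =
                ENNReal.ofReal (3 * C * S / (2 * κ ^ 2)) := by
              rw [← ENNReal.ofReal_mul (by positivity)]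
              congr 1
              ring
            rw [a1, a2]
    set V : ℝ := (volume (A n)).toReal with hV
    have hVe : volume (A n) = ENNReal.ofReal V := (ENNReal.ofReal_toReal (hAf n)).symm
    have hV0 : 0 ≤ V := ENNReal.toReal_nonneg
    rw [hVe, ← ENNReal.ofReal_mul hlam.le, ← ENNReal.ofReal_mul (by positivity),
      ← ENNReal.ofReal_add (by positivity) (by positivity)] at h1
    have h2 := (ENNReal.ofReal_le_ofReal_iff (by positivity)).1 h1
    rw [hVe]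
    apply ENNReal.ofReal_le_ofReal
    have h3 : 3 * C * S / (2 * κ ^ 2) = lam / 2 * (12 * C * (S / lam) ^ 3) := by
      rw [hκ]; field_simp; ring
    rw [h3] at h2
    have h4 : lam / 2 * V ≤ lam / 2 * (12 * C * (S / lam) ^ 3) := by linarith
    exact le_of_mul_le_mul_left h4 (by positivity)
  have hun : {ξ : E 3 | lam < ‖T g ξ‖} = ⋃ n, A n := by
    ext ξ
    simp only [hAn, mem_iUnion, mem_inter_iff, mem_ball_zero_iff]
    constructor
    · intro h
      obtain ⟨n, hn⟩ := exists_nat_gt ‖ξ‖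
      exact ⟨n, h, hn⟩
    · rintro ⟨n, h, -⟩
      exact h
  have hmono : Monotone A := fun a b hab => inter_subset_inter_right _
    (ball_subset_ball (by exact_mod_cast hab))
  rw [hun, hmono.measure_iUnion]
  exact iSup_le hball

/-- **Superpositions, the scaling line.** -/
theorem sum_strong : ∃ C : ℝ, 0 < C ∧ ∀ (η : ℕ → E 3) (N : ℕ → ℕ) (f : ℕ → E 3 → ℝ≥0)
    (m : ℕ → E 3 → ℂ), (∀ j, Atm (N j) (f j) (m j)) → ∀ g : E 3 → ℂ,
    (∀ᵐ x ∂(sg 3), g x = ∑' j, mdl (η j) (f j) (m j) x) → ∀ p : ℝ, 3 < p →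
    eLpNorm (T g) (ENNReal.ofReal p) volume ≤ ENNReal.ofReal (C * (1 / (p - 3)) ^ (1 / p)) *
      ∑' j, (N j : ℝ≥0∞) ^ (1 / p) *
        (∫⁻ x, (f j x : ℝ≥0∞) ^ (p / (p - 2)) ∂(sg 3)) ^ (1 / (p / (p - 2))) := by
  obtain ⟨C, hC, ST⟩ := strong
  refine ⟨C, hC, fun η N f m hA g hg p hp => ?_⟩
  have hfin := sg_finite 3
  have hp0 : 0 < p := by linarith
  have hp2 : 0 < p - 2 := by linarith
  have hp3 : 0 < p - 3 := by linarith
  have hq1 : 1 ≤ p / (p - 2) := by rw [one_le_div hp2]; linarith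
  have hc0 : ENNReal.ofReal (C * (1 / (p - 3)) ^ (1 / p)) ≠ 0 := by
    rw [ne_eq, ENNReal.ofReal_eq_zero, not_le]
    positivity
  by_cases hne : ∑' j, (N j : ℝ≥0∞) ^ (1 / p) *
        (∫⁻ x, (f j x : ℝ≥0∞) ^ (p / (p - 2)) ∂(sg 3)) ^ (1 / (p / (p - 2))) = ∞
  · rw [hne, ENNReal.mul_top hc0]
    exact le_top
  have hl1 := sum_l1 (q := p / (p - 2)) (p := p) hq1 hp0 hA hne
  have hF1 : ∑' j, ∫⁻ x, ‖mdl (η j) (f j) (m j) x‖ₑ ∂(sg 3) ≠ ∞ :=
    ne_top_of_le_ne_top hl1 (ENNReal.tsum_le_tsum fun j => lintegral_mono fun x =>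
      mdl_enorm _ _ (hA j).m1 x)
  have hF := fun j => mdl_meas (η j) (hA j).mf (hA j).mm
  have h := fun ξ => (T_tsum hF hF1 hg ξ).tendsto_sum_nat
  have hm : ∀ n, AEStronglyMeasurable (fun ξ => ∑ j ∈ Finset.range n, T (mdl (η j) (f j) (m j)) ξ)
      volume := fun n => (Finset.measurable_sum _ fun j _ => T_meas (hF j)).aestronglyMeasurable
  have hmink : eLpNorm (T g) (ENNReal.ofReal p) volume ≤
      ∑' j, eLpNorm (T (mdl (η j) (f j) (m j))) (ENNReal.ofReal p) volume := by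
    refine (Lp.eLpNorm_lim_le_liminf_eLpNorm (p := ENNReal.ofReal p) hm (T g) (ae_of_all _ h)).trans ?_
    have h2 : ∀ n, eLpNorm (fun ξ => ∑ j ∈ Finset.range n, T (mdl (η j) (f j) (m j)) ξ)
        (ENNReal.ofReal p) volume ≤
        ∑' j, eLpNorm (T (mdl (η j) (f j) (m j))) (ENNReal.ofReal p) volume := by
      intro n
      have h3 : (fun ξ => ∑ j ∈ Finset.range n, T (mdl (η j) (f j) (m j)) ξ) =
          ∑ j ∈ Finset.range n, T (mdl (η j) (f j) (m j)) := by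
        ext ξ
        simp
      rw [h3]
      refine (eLpNorm_sum_le (fun j _ => (T_meas (hF j)).aestronglyMeasurable) ?_).trans ?_
      · rw [← ENNReal.ofReal_one]
        exact ENNReal.ofReal_le_ofReal (by linarith)
      · exact ENNReal.sum_le_tsum _
    exact Filter.liminf_le_of_le (by isBoundedDefault) fun b hb => by
      obtain ⟨n, hn⟩ := hb.exists
      exact hn.trans (h2 n)
  refine hmink.trans ?_
  rw [← ENNReal.tsum_mul_left]
  refine ENNReal.tsum_le_tsum fun j => ?_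
  have hfj : ∫⁻ x, f j x ∂(sg 3) ≠ ∞ := ENNReal.ne_top_of_tsum_ne_top hl1 j
  have h1 := ST (N j) (f j) (m j) (hA j).one (hA j).mf (hA j).mm (hA j).m1 (hA j).vr hfj
    (hA j).md p hp
  rw [eLpNorm_eq_lintegral_rpow_enorm_toReal (by rw [ne_eq, ENNReal.ofReal_eq_zero]; linarith)
    ENNReal.ofReal_ne_top, ENNReal.toReal_ofReal hp0.le]
  have e1 : ∫⁻ ξ, ‖T (mdl (η j) (f j) (m j)) ξ‖ₑ ^ p = ∫⁻ ξ, ‖T (cm (f j) (m j)) ξ‖ₑ ^ p := by
    simp only [T_mdl]
    exact lintegral_sub_right_eq_self (fun ξ => ‖T (cm (f j) (m j)) ξ‖ₑ ^ p) (η j)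
  rw [e1]
  calc (∫⁻ ξ, ‖T (cm (f j) (m j)) ξ‖ₑ ^ p) ^ (1 / p)
      ≤ (ENNReal.ofReal (C ^ p * N j / (p - 3)) *
        (∫⁻ x, (f j x : ℝ≥0∞) ^ (p / (p - 2)) ∂(sg 3)) ^ (p - 2)) ^ (1 / p) := by gcongr
    _ = _ := by
        have e2 : C ^ p * N j / (p - 3) = C ^ p * (1 / (p - 3)) * N j := by ring
        rw [e2, ENNReal.ofReal_mul (by positivity), ENNReal.mul_rpow_of_nonneg _ _ (by positivity),
          ENNReal.mul_rpow_of_nonneg _ _ (by positivity), ← ENNReal.rpow_mul, ENNReal.ofReal_natCast,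
          ENNReal.ofReal_rpow_of_nonneg (by positivity) (by positivity), mul_assoc]
        congr 2
        · rw [Real.mul_rpow (by positivity) (by positivity), ← Real.rpow_mul hC.le,
            mul_one_div_cancel hp0.ne', Real.rpow_one]
        · congr 1
          field_simp

end Pool.Agent.V1172.GC
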