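import Mathlib
import Pool.Agent.V1172.GC.Sup

set_option autoImplicit false

/-! Complex densities. -/

namespace Pool.Agent.V1172.GC

open MeasureTheory Set Metric Complex
open Pool.Agent.H789R2.FR
open scoped ENNReal NNReal RealInnerProductSpace

/-- the four parts -/
noncomputable def prt (G : E 3 → ℂ) (j : Fin 4) (x : E 3) : ℝ≥0 :=
  (![(G x).re, -(G x).re, (G x).im, -(G x).im] j).toNNReal

/-- the four phases -/
noncomputable def phs (j : Fin 4) : ℂ := ![1, -1, I, -I] j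

lemma prt_meas {G : E 3 → ℂ} (hG : Measurable G) (j : Fin 4) : Measurable (prt G j) := by
  have h1 : Measurable fun x => (G x).re := Complex.measurable_re.comp hG
  have h2 : Measurable fun x => (G x).im := Complex.measurable_im.comp hG
  fin_cases j
  · exact measurable_real_toNNReal.comp h1
  · exact measurable_real_toNNReal.comp h1.neg
  · exact measurable_real_toNNReal.comp h2
  · exact measurable_real_toNNReal.comp h2.neg

lemma prt_le (G : E 3 → ℂ) (j : Fin 4) (x : E 3) : prt G j x ≤ ‖G x‖₊ := by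
  have h1 := Complex.abs_re_le_norm (G x)
  have h2 := Complex.abs_im_le_norm (G x)
  rw [prt, Real.toNNReal_le_iff_le_coe, coe_nnnorm]
  fin_cases j
  · exact (le_abs_self _).trans h1
  · exact (neg_le_abs _).trans h1
  · exact (le_abs_self _).trans h2
  · exact (neg_le_abs _).trans h2

lemma phs_norm (j : Fin 4) : ‖phs j‖ ≤ 1 := by
  fin_cases j <;> simp [phs]

lemma toNN_sub (a : ℝ) : ((a.toNNReal : ℝ≥0) : ℝ) - (((-a).toNNReal : ℝ≥0) : ℝ) = a := by
  rcases le_total 0 a with h | h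
  · rw [Real.coe_toNNReal _ h, Real.toNNReal_of_nonpos (by linarith)]; simp
  · rw [Real.coe_toNNReal _ (by linarith : 0 ≤ -a), Real.toNNReal_of_nonpos h]; simp

lemma prt_sum (G : E 3 → ℂ) (x : E 3) : ∑ j, cm (prt G j) (fun _ => phs j) x = G x := by
  rw [Fin.sum_univ_four]
  simp only [cm, prt, phs, Matrix.cons_val]
  have h1 := toNN_sub (G x).re
  have h2 := toNN_sub (G x).im
  simp only [Real.coe_toNNReal'] at h1 h2
  apply Complex.ext
  · simp
    linarith
  · simp
    linarith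

lemma vr_const (N : ℕ) (c : ℂ) : Vr N fun _ => c := by
  intro ω v _ _ _
  rw [eVariationOn.constant_on]
  · exact zero_le
  · rintro _ ⟨x, -, rfl⟩ _ ⟨y, -, rfl⟩
    rfl

lemma T_prt {G : E 3 → ℂ} (hG : Measurable G) (hfin : ∫⁻ x, ‖G x‖ₑ ∂(sg 3) ≠ ∞) (ξ : E 3) :
    T G ξ = ∑ j, T (cm (prt G j) fun _ => phs j) ξ := by
  unfold T
  rw [← integral_finsetSum]
  · congr 1
    ext w
    rw [← Finset.mul_sum, prt_sum]
  · intro j _
    exact cm_int (prt_meas hG j) measurable_const (fun _ => phs_norm j)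
      (ne_top_of_le_ne_top hfin (lintegral_mono fun x => ENNReal.coe_le_coe.2 (prt_le G j x))) ξ

/-- the endpoint for one density -/
theorem one_weak : ∃ C : ℝ, 0 < C ∧ ∀ (N : ℕ) (G : E 3 → ℂ), 1 ≤ N → Measurable G →
    ∫⁻ x, ‖G x‖ₑ ∂(sg 3) ≠ ∞ → (∀ j, Md N (prt G j)) → ∀ lam : ℝ, 0 < lam →
      volume {ξ | lam < ‖T G ξ‖} ≤ ENNReal.ofReal (C * N / lam ^ 3) *
        ∫⁻ x, ‖G x‖ₑ ^ 3 ∂(sg 3) := by
  obtain ⟨C, hC, WK⟩ := weak
  refine ⟨256 * C, by positivity, fun N G hN hG hfin hM lam hlam => ?_⟩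
  have hsub : {ξ : E 3 | lam < ‖T G ξ‖} ⊆ ⋃ j : Fin 4, {ξ | lam / 4 < ‖T (cm (prt G j) fun _ => phs j) ξ‖} := by
    intro ξ hξ
    by_contra hcon
    simp only [mem_iUnion, mem_ofPred_eq, not_exists, not_lt] at hcon
    have h1 : lam < ‖T G ξ‖ := hξ
    rw [T_prt hG hfin] at h1
    have h2 := norm_sum_le (Finset.univ : Finset (Fin 4)) fun j => T (cm (prt G j) fun _ => phs j) ξ
    have h3 : ∑ j : Fin 4, ‖T (cm (prt G j) fun _ => phs j) ξ‖ ≤ ∑ _j : Fin 4, lam / 4 :=
      Finset.sum_le_sum fun j _ => hcon j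
    rw [Finset.sum_const, Finset.card_univ, Fintype.card_fin, nsmul_eq_mul] at h3
    push_cast at h3
    linarith
  refine (measure_mono hsub).trans ((measure_iUnion_le _).trans ?_)
  rw [tsum_fintype]
  have h4 : ∀ j : Fin 4, volume {ξ | lam / 4 < ‖T (cm (prt G j) fun _ => phs j) ξ‖} ≤
      ENNReal.ofReal (64 * C * N / lam ^ 3) * ∫⁻ x, ‖G x‖ₑ ^ 3 ∂(sg 3) := by
    intro j
    obtain ⟨s, -, h5⟩ := WK N (prt G j) (fun _ => phs j) hN (prt_meas hG j) measurable_const
      (fun _ => phs_norm j) (vr_const N _)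
      (ne_top_of_le_ne_top hfin (lintegral_mono fun x => ENNReal.coe_le_coe.2 (prt_le G j x)))
      (hM j) (lam / 4) (by positivity)
    refine h5.trans ?_
    have e : C * N / (lam / 4) ^ 3 = 64 * C * N / lam ^ 3 := by field_simp; ring
    rw [e]
    refine mul_le_mul' le_rfl (lintegral_mono fun x => ?_)
    gcongr
    exact ENNReal.coe_le_coe.2 ((min_le_left _ _).trans (prt_le G j x))
  refine (Finset.sum_le_sum fun j _ => h4 j).trans (le_of_eq ?_)
  rw [Finset.sum_const, Finset.card_univ, Fintype.card_fin, nsmul_eq_mul, ← mul_assoc]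
  congr 1
  rw [← ENNReal.ofReal_natCast, ← ENNReal.ofReal_mul (by positivity)]
  congr 1
  push_cast
  ring

/-- the scaling line for one density -/
theorem one_strong : ∃ C : ℝ, 0 < C ∧ ∀ (N : ℕ) (G : E 3 → ℂ), 1 ≤ N → Measurable G →
    ∫⁻ x, ‖G x‖ₑ ∂(sg 3) ≠ ∞ → (∀ j, Md N (prt G j)) → ∀ p : ℝ, 3 < p →
      eLpNorm (T G) (ENNReal.ofReal p) volume ≤ ENNReal.ofReal (C * (N / (p - 3)) ^ (1 / p)) *
        (∫⁻ x, ‖G x‖ₑ ^ (p / (p - 2)) ∂(sg 3)) ^ (1 / (p / (p - 2))) := by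
  obtain ⟨C, hC, ST⟩ := strong
  refine ⟨4 * C, by positivity, fun N G hN hG hfin hM p hp => ?_⟩
  have hp0 : 0 < p := by linarith
  have hp2 : 0 < p - 2 := by linarith
  have hp3 : 0 < p - 3 := by linarith
  have e1 : T G = ∑ j : Fin 4, T (cm (prt G j) fun _ => phs j) := by
    ext ξ
    rw [T_prt hG hfin, Finset.sum_apply]
  rw [e1]
  refine (eLpNorm_sum_le (fun j _ => (T_meas (cm_meas (prt_meas hG j) measurable_const)).aestronglyMeasurable)
    (by rw [← ENNReal.ofReal_one]; exact ENNReal.ofReal_le_ofReal (by linarith))).trans ?_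
  have h4 : ∀ j : Fin 4, eLpNorm (T (cm (prt G j) fun _ => phs j)) (ENNReal.ofReal p) volume ≤
      ENNReal.ofReal (C * (N / (p - 3)) ^ (1 / p)) *
        (∫⁻ x, ‖G x‖ₑ ^ (p / (p - 2)) ∂(sg 3)) ^ (1 / (p / (p - 2))) := by
    intro j
    have h1 := ST N (prt G j) (fun _ => phs j) hN (prt_meas hG j) measurable_const
      (fun _ => phs_norm j) (vr_const N _)
      (ne_top_of_le_ne_top hfin (lintegral_mono fun x => ENNReal.coe_le_coe.2 (prt_le G j x)))
      (hM j) p hp
    rw [eLpNorm_eq_lintegral_rpow_enorm_toReal (by rw [ne_eq, ENNReal.ofReal_eq_zero]; linarith)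
      ENNReal.ofReal_ne_top, ENNReal.toReal_ofReal hp0.le]
    calc (∫⁻ ξ, ‖T (cm (prt G j) fun _ => phs j) ξ‖ₑ ^ p) ^ (1 / p)
        ≤ (ENNReal.ofReal (C ^ p * N / (p - 3)) *
          (∫⁻ x, ‖G x‖ₑ ^ (p / (p - 2)) ∂(sg 3)) ^ (p - 2)) ^ (1 / p) := by
          refine ENNReal.rpow_le_rpow (h1.trans (mul_le_mul' le_rfl ?_)) (by positivity)
          refine ENNReal.rpow_le_rpow (lintegral_mono fun x => ?_) hp2.le
          exact ENNReal.rpow_le_rpow (ENNReal.coe_le_coe.2 (prt_le G j x)) (by positivity)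
      _ = _ := by
          have e2 : C ^ p * N / (p - 3) = C ^ p * (N / (p - 3)) := by ring
          rw [e2, ENNReal.mul_rpow_of_nonneg _ _ (by positivity), ← ENNReal.rpow_mul,
            ENNReal.ofReal_rpow_of_nonneg (by positivity) (by positivity)]
          congr 2
          · rw [Real.mul_rpow (by positivity) (by positivity), ← Real.rpow_mul hC.le,
              mul_one_div_cancel hp0.ne', Real.rpow_one]
          · field_simp
  refine (Finset.sum_le_sum fun j _ => h4 j).trans (le_of_eq ?_)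
  rw [Finset.sum_const, Finset.card_univ, Fintype.card_fin, nsmul_eq_mul, ← mul_assoc]
  congr 1
  rw [← ENNReal.ofReal_natCast, ← ENNReal.ofReal_mul (by positivity)]
  congr 1
  push_cast
  ring

end Pool.Agent.V1172.GC
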